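import Mathlib

/-!
Balls, growth rates of a group with respect to a finite set, existence of the limit.
-/

namespace Pool.Agent.H341.GR

open Filter Topology

section general

variable {Γ : Type*} [Group Γ]

/-- the ball of radius `r` in the word length of the finite set `S` -/
def ball (S : Finset Γ) (r : ℕ) : Set Γ :=
  {g | ∃ l : List Γ, l.length ≤ r ∧ (∀ x ∈ l, x ∈ S ∨ x⁻¹ ∈ S) ∧ l.prod = g}

lemma one_mem_ball (S : Finset Γ) (r : ℕ) : (1 : Γ) ∈ ball S r := ⟨[], by simp, by simp, rfl⟩

lemma ball_finite (S : Finset Γ) (r : ℕ) : (ball S r).Finite := by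
  classical
  set T : Finset Γ := S ∪ S.image (fun x => x⁻¹) with hT
  induction r with
  | zero =>
    apply (Set.finite_singleton (1 : Γ)).subset
    rintro g ⟨l, hl, _, hp⟩
    have : l = [] := List.length_eq_zero_iff.mp (by omega)
    subst this
    simpa using hp.symm
  | succ r ih =>
    apply ((ih.prod T.finite_toSet).image (fun p : Γ × Γ => p.2 * p.1) |>.union ih).subset
    rintro g ⟨l, hl, hS, hp⟩
    cases l with
    | nil =>
      right
      exact ⟨[], by simp, by simp, hp⟩
    | cons a l =>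
      left
      refine ⟨(l.prod, a), ?_, ?_⟩
      · refine ⟨⟨l, ?_, fun x hx => hS x (by simp [hx]), rfl⟩, ?_⟩
        · simp at hl; omega
        · rcases hS a (by simp) with h | h
          · simp [hT, h]
          · simp only [hT, Finset.coe_union, Finset.coe_image, Set.mem_union, Set.mem_image,
              Finset.mem_coe]
            right
            exact ⟨a⁻¹, h, inv_inv a⟩
      · rw [← hp, List.prod_cons]

lemma ball_mul (S : Finset Γ) (r r' : ℕ) :
    (ball S (r + r')).ncard ≤ (ball S r).ncard * (ball S r').ncard := by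
  have h1 : ball S (r + r') ⊆ (fun p : Γ × Γ => p.1 * p.2) '' (ball S r ×ˢ ball S r') := by
    rintro g ⟨l, hl, hS, hp⟩
    refine ⟨((l.take r).prod, (l.drop r).prod), ⟨⟨l.take r, by simp, ?_, rfl⟩,
      ⟨l.drop r, ?_, ?_, rfl⟩⟩, ?_⟩
    · intro x hx; exact hS x (List.mem_of_mem_take hx)
    · rw [List.length_drop]; omega
    · intro x hx; exact hS x (List.mem_of_mem_drop hx)
    · simp only []
      rw [← List.prod_append, List.take_append_drop, hp]
  have hfin : (ball S r ×ˢ ball S r').Finite := (ball_finite S r).prod (ball_finite S r')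
  calc (ball S (r + r')).ncard ≤ ((fun p : Γ × Γ => p.1 * p.2) '' (ball S r ×ˢ ball S r')).ncard :=
        Set.ncard_le_ncard h1 (hfin.image _)
    _ ≤ (ball S r ×ˢ ball S r').ncard := Set.ncard_image_le hfin
    _ = _ := Set.ncard_prod

lemma ball_pos (S : Finset Γ) (r : ℕ) : 0 < (ball S r).ncard := by
  rw [Set.ncard_pos (ball_finite S r)]
  exact ⟨1, one_mem_ball S r⟩

lemma ball_mono (S : Finset Γ) {r r' : ℕ} (h : r ≤ r') : ball S r ⊆ ball S r' := by
  rintro g ⟨l, hl, hS, hp⟩
  exact ⟨l, hl.trans h, hS, hp⟩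

/-- `ρ` is the exponential growth rate of the finite set `S` -/
def IsRate (S : Finset Γ) (ρ : ℝ) : Prop :=
  Tendsto (fun r : ℕ => ((ball S r).ncard : ℝ) ^ ((1 : ℝ) / r)) atTop (𝓝 ρ)

lemma exists_rate (S : Finset Γ) : ∃ ρ : ℝ, 1 ≤ ρ ∧ IsRate S ρ := by
  have hpos : ∀ r, (1 : ℝ) ≤ ((ball S r).ncard : ℝ) := by
    intro r
    exact_mod_cast ball_pos S r
  have hsub : Subadditive (fun r => Real.log ((ball S r).ncard : ℝ)) := by
    intro r r'
    rw [← Real.log_mul (by linarith [hpos r]) (by linarith [hpos r'])]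
    apply Real.log_le_log (by linarith [hpos (r + r')])
    exact_mod_cast ball_mul S r r'
  have hbdd : BddBelow (Set.range fun r : ℕ => Real.log ((ball S r).ncard : ℝ) / r) := by
    refine ⟨0, ?_⟩
    rintro x ⟨r, rfl⟩
    exact div_nonneg (Real.log_nonneg (hpos r)) (Nat.cast_nonneg _)
  have hlim := hsub.tendsto_lim hbdd
  have hexp := (Real.continuous_exp.tendsto hsub.lim).comp hlim
  have hEq : (Real.exp ∘ fun r : ℕ => Real.log ((ball S r).ncard : ℝ) / r) =
      fun r : ℕ => ((ball S r).ncard : ℝ) ^ ((1 : ℝ) / r) := by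
    funext r
    simp only [Function.comp]
    rw [Real.rpow_def_of_pos (by linarith [hpos r])]
    congr 1
    ring
  rw [hEq] at hexp
  refine ⟨_, ?_, hexp⟩
  apply ge_of_tendsto hexp
  filter_upwards with r
  apply Real.one_le_rpow (hpos r)
  positivity

/-- upper bound for the ball from a strict bound on the rate -/
lemma rate_lt {S : Finset Γ} {ρ q : ℝ} (h : IsRate S ρ) (hq : ρ < q) :
    ∀ᶠ r : ℕ in atTop, ((ball S r).ncard : ℝ) ≤ q ^ r := by
  have h1 := h.eventually_lt_const hq
  filter_upwards [h1, eventually_gt_atTop 0] with r hr hr0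
  have h0 : (0 : ℝ) ≤ ((ball S r).ncard : ℝ) := Nat.cast_nonneg _
  have h2 : (((ball S r).ncard : ℝ) ^ ((1 : ℝ) / r)) ^ r ≤ q ^ r := by
    apply pow_le_pow_left₀ (Real.rpow_nonneg h0 _) hr.le
  rwa [one_div, Real.rpow_inv_natCast_pow h0 (by omega)] at h2

/-- lower bound for the ball from a strict bound on the rate -/
lemma rate_gt {S : Finset Γ} {ρ q : ℝ} (h : IsRate S ρ) (hq0 : 0 ≤ q) (hq : q < ρ) :
    ∀ᶠ r : ℕ in atTop, q ^ r ≤ ((ball S r).ncard : ℝ) := by
  have h1 := h.eventually_const_lt hq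
  filter_upwards [h1, eventually_gt_atTop 0] with r hr hr0
  have h0 : (0 : ℝ) ≤ ((ball S r).ncard : ℝ) := Nat.cast_nonneg _
  have h2 : q ^ r ≤ (((ball S r).ncard : ℝ) ^ ((1 : ℝ) / r)) ^ r := by
    apply pow_le_pow_left₀ hq0 hr.le
  rwa [one_div, Real.rpow_inv_natCast_pow h0 (by omega)] at h2

lemma mem_ball_mul {S : Finset Γ} {r r' : ℕ} {g g' : Γ} (h : g ∈ ball S r) (h' : g' ∈ ball S r') :
    g * g' ∈ ball S (r + r') := by
  obtain ⟨l, h1, h2, h3⟩ := h
  obtain ⟨l', h1', h2', h3'⟩ := h'
  refine ⟨l ++ l', ?_, ?_, ?_⟩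
  · rw [List.length_append]; omega
  · intro x hx
    rw [List.mem_append] at hx
    rcases hx with hx | hx
    · exact h2 x hx
    · exact h2' x hx
  · rw [List.prod_append, h3, h3']

lemma mem_ball_inv {S : Finset Γ} {r : ℕ} {g : Γ} (h : g ∈ ball S r) : g⁻¹ ∈ ball S r := by
  obtain ⟨l, hl, hS, hp⟩ := h
  refine ⟨(l.map (fun x => x⁻¹)).reverse, by simpa using hl, ?_, ?_⟩
  · intro x hx
    rw [List.mem_reverse, List.mem_map] at hx
    obtain ⟨y, hy, rfl⟩ := hx
    rw [inv_inv]
    exact (hS y hy).symm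
  · rw [← hp, List.prod_inv_reverse]

lemma exists_mem_ball {S : Finset Γ} (hS : Subgroup.closure (S : Set Γ) = ⊤) (g : Γ) :
    ∃ r, g ∈ ball S r := by
  have hg : g ∈ Subgroup.closure (S : Set Γ) := by rw [hS]; trivial
  induction hg using Subgroup.closure_induction with
  | mem x hx => exact ⟨1, [x], by simp, by simpa using Or.inl hx, by simp⟩
  | one => exact ⟨0, one_mem_ball S 0⟩
  | mul x y _ _ hx hy =>
    obtain ⟨r, hr⟩ := hx
    obtain ⟨r', hr'⟩ := hy
    exact ⟨r + r', mem_ball_mul hr hr'⟩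
  | inv x _ hx =>
    obtain ⟨r, hr⟩ := hx
    exact ⟨r, mem_ball_inv hr⟩

/-- exponential growth does not depend on the generating set -/
lemma one_lt_rate {S S' : Finset Γ} (hS' : Subgroup.closure (S' : Set Γ) = ⊤) {ρ ρ' : ℝ}
    (hρ : IsRate S ρ) (h1 : 1 < ρ) (hρ' : IsRate S' ρ') : 1 < ρ' := by
  -- a common bound for the lengths of the letters
  have hC : ∃ C : ℕ, ∀ x ∈ S, x ∈ ball S' C := by
    choose c hc using exists_mem_ball hS'
    refine ⟨S.sup c, fun x hx => ball_mono S' (Finset.le_sup hx) (hc x)⟩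
  obtain ⟨C, hC⟩ := hC
  have hsub : ∀ r, ball S r ⊆ ball S' (C * r) := by
    rintro r g ⟨l, hl, hS, hp⟩
    have : ∀ l : List Γ, (∀ x ∈ l, x ∈ S ∨ x⁻¹ ∈ S) → l.prod ∈ ball S' (C * l.length) := by
      intro l
      induction l with
      | nil => intro _; exact one_mem_ball _ _
      | cons a l ih =>
        intro hl
        rw [List.prod_cons, List.length_cons]
        have ha : a ∈ ball S' C := by
          rcases hl a (by simp) with h | h
          · exact hC a h
          · have := mem_ball_inv (hC _ h)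
            rwa [inv_inv] at this
        have := mem_ball_mul ha (ih (fun x hx => hl x (by simp [hx])))
        have e : C * (l.length + 1) = C + C * l.length := by ring
        rwa [e]
    rw [← hp]
    exact ball_mono S' (Nat.mul_le_mul_left _ hl) (this l hS)
  by_contra hcon
  push Not at hcon
  obtain ⟨q, hq1, hq2⟩ := exists_between h1
  have hq0 : 0 < q := by linarith
  set q' : ℝ := q ^ ((1 : ℝ) / ((C + 1 : ℕ) : ℝ)) with hq'
  have hq'1 : 1 < q' := Real.one_lt_rpow hq1 (by positivity)
  have hq'2 : q' ^ (C + 1) = q := by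
    rw [hq', one_div, Real.rpow_inv_natCast_pow hq0.le (by omega)]
  have hq'3 : q' ^ C < q := by
    rw [← hq'2, pow_succ]
    have : 0 < q' ^ C := by positivity
    nlinarith
  have h2 := rate_lt hρ' (lt_of_le_of_lt hcon hq'1)
  have h3 := rate_gt hρ hq0.le hq2
  rw [eventually_atTop] at h2 h3
  obtain ⟨r2, hr2⟩ := h2
  obtain ⟨r3, hr3⟩ := h3
  rcases Nat.eq_zero_or_pos C with hC0 | hC0
  · -- all balls of `S` are trivial
    subst hC0
    have hb : ∀ r, (ball S r).ncard ≤ 1 := by
      intro r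
      have h5 := hsub r
      rw [Nat.zero_mul] at h5
      have h6 : ball S' 0 ⊆ {1} := by
        rintro g ⟨l, hl, _, hp⟩
        have : l = [] := List.length_eq_zero_iff.mp (by omega)
        subst this
        simpa using hp.symm
      calc (ball S r).ncard ≤ ({1} : Set Γ).ncard :=
            Set.ncard_le_ncard (h5.trans h6) (Set.finite_singleton _)
        _ = 1 := Set.ncard_singleton _
    have h7 := hr3 (r3 + 1) (by omega)
    have h8 : ((ball S (r3 + 1)).ncard : ℝ) ≤ 1 := by exact_mod_cast hb (r3 + 1)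
    have h9 : 1 < q ^ (r3 + 1) := one_lt_pow₀ hq1 (by omega)
    linarith
  · set r := r2 + r3 + 1 with hr
    have h4 := hr2 (C * r) (by nlinarith)
    have h5 := hr3 r (by omega)
    have h6 : ((ball S r).ncard : ℝ) ≤ ((ball S' (C * r)).ncard : ℝ) := by
      exact_mod_cast Set.ncard_le_ncard (hsub r) (ball_finite _ _)
    have h7 : (q' ^ C) ^ r < q ^ r := pow_lt_pow_left₀ hq'3 (by positivity) (by omega)
    rw [← pow_mul] at h7
    linarith

end general

end Pool.Agent.H341.GR
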