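import Pool.Agent.H341.GR.Low
import Pool.Agent.H341.GR.Rate

/-!
The transfer function `T` and its relation with the growth rate.
-/

namespace Pool.Agent.H341.GR

open Finset Filter Topology

/-- the transfer function -/
noncomputable def T (n w : ℕ) (z : ℝ) : ℝ :=
  ∑ g : Fin w → L, z ^ (w + 2 * (base n w).bad g univ)

lemma T_eq (n w : ℕ) (z : ℝ) : T n w z = (32 * z) ^ w * (base n w).Pr (z ^ 2) univ := by
  unfold T Sys.Pr
  rw [Fintype.card_fin, mul_pow]
  have : ∀ g : Fin w → L, z ^ (w + 2 * (base n w).bad g univ) =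
      z ^ w * (z ^ 2) ^ ((base n w).bad g univ) := by
    intro g; rw [pow_add, pow_mul]
  simp_rw [this]
  rw [← Finset.mul_sum]
  field_simp

lemma T_nonneg (n w : ℕ) {z : ℝ} (hz : 0 ≤ z) : 0 ≤ T n w z := by
  unfold T
  apply Finset.sum_nonneg
  intro g _
  exact pow_nonneg hz _

lemma base_E_castAdd (n k l : ℕ) (τ : Bool) (x y : Fin k) :
    (base n (k + l)).E τ (Fin.castAdd l x) (Fin.castAdd l y) ↔ (base n k).E τ x y := by
  simp [base]

lemma base_E_natAdd (n k l : ℕ) (τ : Bool) (x y : Fin l) :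
    (base n (k + l)).E τ (Fin.natAdd k x) (Fin.natAdd k y) ↔ (base n l).E τ x y := by
  simp only [base, Fin.val_natAdd]
  omega

lemma bad_append (n k l : ℕ) (g : Fin (k + l) → L) :
    (base n k).bad (fun j => g (Fin.castAdd l j)) univ +
      (base n l).bad (fun j => g (Fin.natAdd k j)) univ ≤ (base n (k + l)).bad g univ := by
  unfold Sys.bad
  rw [Fin.sum_univ_add]
  apply Nat.add_le_add
  · apply Finset.sum_le_sum
    intro x _
    rw [Fin.sum_univ_add]
    refine le_trans ?_ (Nat.le_add_right _ _)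
    apply Finset.sum_le_sum
    intro y _
    unfold Sys.b
    apply Finset.sum_le_sum
    intro τ _
    apply le_of_eq
    apply ind_congr
    unfold Sys.Bad
    rw [base_E_castAdd]
  · apply Finset.sum_le_sum
    intro x _
    rw [Fin.sum_univ_add]
    refine le_trans ?_ (Nat.le_add_left _ _)
    apply Finset.sum_le_sum
    intro y _
    unfold Sys.b
    apply Finset.sum_le_sum
    intro τ _
    apply le_of_eq
    apply ind_congr
    unfold Sys.Bad
    rw [base_E_natAdd]

lemma T_mul (n k l : ℕ) {z : ℝ} (hz : 0 ≤ z) (hz1 : z ≤ 1) :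
    T n (k + l) z ≤ T n k z * T n l z := by
  unfold T
  rw [Finset.sum_mul_sum]
  rw [← Fintype.sum_prod_type']
  rw [← (Fin.appendEquiv k l).sum_comp]
  apply Finset.sum_le_sum
  rintro ⟨a, b⟩ _
  rw [← pow_add]
  apply pow_le_pow_of_le_one hz hz1
  have h := bad_append n k l (Fin.append a b)
  have e1 : (fun j => Fin.append a b (Fin.castAdd l j)) = a := by
    funext j; simp
  have e2 : (fun j => Fin.append a b (Fin.natAdd k j)) = b := by
    funext j; simp
  rw [e1, e2] at h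
  have e3 : (Fin.appendEquiv k l) (a, b) = Fin.append a b := rfl
  rw [e3]
  simp only []
  omega

lemma bad_le_card (n k : ℕ) (g : Fin k → L) : (base n k).bad g univ ≤ k := by
  have := (base n k).bad_le g (fun _ => 1) (fun _ _ _ _ => by omega)
  simpa using this

/-- labellings with exactly `c` bad edges -/
noncomputable def Nc (n k c : ℕ) : Finset (Fin k → L) :=
  univ.filter (fun g => (base n k).bad g univ = c)

lemma T_sum (n k : ℕ) (z : ℝ) : T n k z = ∑ c ∈ range (k + 1), ((Nc n k c).card : ℝ) *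
    z ^ (k + 2 * c) := by
  unfold T
  rw [← Finset.sum_fiberwise_of_maps_to (s := univ) (t := range (k + 1))
    (g := fun g : Fin k → L => (base n k).bad g univ)]
  · apply Finset.sum_congr rfl
    intro c _
    rw [← nsmul_eq_mul, ← Finset.sum_const]
    apply Finset.sum_congr rfl
    intro g hg
    rw [Finset.mem_filter] at hg
    rw [hg.2]
  · intro g _
    rw [Finset.mem_range]
    have := bad_le_card n k g
    omega

lemma Nc_le (n k c : ℕ) (hn : 1 ≤ n) : (Nc n k c).card ≤ (ball (S n) (k + n + 2 * c)).ncard := by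
  rw [← Set.ncard_coe_finset]
  apply Set.ncard_le_ncard_of_injOn (elt n k) _ (elt_inj n k hn).injOn (ball_finite _ _)
  · intro g hg
    simp only [Nc, Finset.coe_filter, Finset.mem_univ, true_and, Set.mem_ofPred_eq] at hg
    obtain ⟨r, hr, l, hl, hS, hp⟩ := elt_len n k g
    refine ⟨l, ?_, hS, hp⟩
    rw [hl]
    omega

/-- **(B)** -/
lemma T_tendsto (n : ℕ) (hn : 1 ≤ n) {ρ z : ℝ} (hρ : IsRate (S n) ρ) (hρ1 : 1 ≤ ρ) (hz : 0 < z)
    (hρz : ρ * z < 1) : Tendsto (fun k => T n k z) atTop (𝓝 0) := by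
  obtain ⟨q, hq1, hq2⟩ : ∃ q, ρ < q ∧ q * z < 1 := by
    have : ρ < 1 / z := by rwa [lt_div_iff₀ hz]
    obtain ⟨q, h1, h2⟩ := exists_between this
    exact ⟨q, h1, by rwa [lt_div_iff₀ hz] at h2⟩
  have hq0 : 0 < q := by linarith
  have hqz0 : 0 ≤ q * z := by positivity
  have h1 := rate_lt hρ hq1
  rw [eventually_atTop] at h1
  obtain ⟨r0, hr0⟩ := h1
  have h2 : ∀ k ≥ r0, T n k z ≤ q ^ n * ((k + 1 : ℕ) * (q * z) ^ k) := by
    intro k hk
    rw [T_sum]
    calc ∑ c ∈ range (k + 1), ((Nc n k c).card : ℝ) * z ^ (k + 2 * c)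
        ≤ ∑ c ∈ range (k + 1), q ^ n * (q * z) ^ k := by
          apply Finset.sum_le_sum
          intro c _
          have h3 : ((Nc n k c).card : ℝ) ≤ q ^ (k + n + 2 * c) := by
            calc ((Nc n k c).card : ℝ) ≤ ((ball (S n) (k + n + 2 * c)).ncard : ℝ) := by
                  exact_mod_cast Nc_le n k c hn
              _ ≤ _ := hr0 _ (by omega)
          calc ((Nc n k c).card : ℝ) * z ^ (k + 2 * c)
              ≤ q ^ (k + n + 2 * c) * z ^ (k + 2 * c) := by
                apply mul_le_mul_of_nonneg_right h3; positivity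
            _ = q ^ n * ((q * z) ^ k * (q * z) ^ (2 * c)) := by
                rw [mul_pow, mul_pow]; ring
            _ ≤ q ^ n * ((q * z) ^ k * 1) := by
                apply mul_le_mul_of_nonneg_left _ (by positivity)
                apply mul_le_mul_of_nonneg_left _ (by positivity)
                exact pow_le_one₀ hqz0 hq2.le
            _ = _ := by ring
      _ = _ := by
          rw [Finset.sum_const, Finset.card_range, nsmul_eq_mul]; ring
  have h3 : Tendsto (fun k : ℕ => q ^ n * (((k + 1 : ℕ) : ℝ) * (q * z) ^ k)) atTop (𝓝 0) := by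
    have e1 : Tendsto (fun k : ℕ => (k : ℝ) * (q * z) ^ k) atTop (𝓝 0) :=
      tendsto_self_mul_const_pow_of_lt_one hqz0 hq2
    have e2 : Tendsto (fun k : ℕ => (q * z) ^ k) atTop (𝓝 0) :=
      tendsto_pow_atTop_nhds_zero_of_lt_one hqz0 hq2
    have e3 := (e1.add e2).const_mul (q ^ n)
    rw [add_zero, mul_zero] at e3
    apply e3.congr
    intro k
    push_cast
    ring
  apply squeeze_zero' (Eventually.of_forall (fun k => T_nonneg n k hz.le)) _ h3
  filter_upwards [eventually_ge_atTop r0] with k hk using h2 k hk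

lemma T_bdd (n w : ℕ) (hw : 1 ≤ w) {z : ℝ} (hz : 0 ≤ z) (hz1 : z ≤ 1) (hT : T n w z < 1) (k : ℕ) :
    T n k z ≤ ∑ s ∈ range w, T n s z := by
  induction k using Nat.strong_induction_on with
  | _ k ih =>
    by_cases hk : k < w
    · exact Finset.single_le_sum (f := fun s => T n s z) (fun s _ => T_nonneg n s hz)
        (Finset.mem_range.mpr hk)
    · obtain ⟨j, rfl⟩ : ∃ j, k = w + j := ⟨k - w, by omega⟩
      have h1 := T_mul n w j hz hz1
      have h2 := ih j (by omega)
      have h3 := T_nonneg n j hz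
      have h4 := T_nonneg n w hz
      nlinarith

lemma ball_inv (n r : ℕ) (g : G) (h : g ∈ ball (S n) r) : g⁻¹ ∈ ball (S n) r := by
  obtain ⟨l, hl, hS, hp⟩ := h
  refine ⟨(l.map (fun x => x⁻¹)).reverse, by simpa using hl, ?_, ?_⟩
  · intro x hx
    rw [List.mem_reverse, List.mem_map] at hx
    obtain ⟨y, hy, rfl⟩ := hx
    rw [inv_inv]
    exact (hS y hy).symm
  · rw [← hp, List.prod_inv_reverse]

/-- elements with given window data -/
def Bx (n r x y k : ℕ) : Set G :=
  {g | g.k = k ∧ (∀ i : ℤ, g.f i ≠ 0 → -(x : ℤ) - n ≤ i ∧ i < k + y) ∧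
    2 * x + 2 * y + k + 2 * (base n k).bad (fun j : Fin k => g.f ((j : ℕ) : ℤ)) univ ≤ r}

/-- restriction data -/
def res (n x y k : ℕ) (g : G) : (Fin (x + n) → L) × (Fin k → L) × (Fin y → L) :=
  (fun j => g.f ((j : ℕ) - x - n : ℤ), fun j => g.f ((j : ℕ) : ℤ), fun j => g.f ((j : ℕ) + k : ℤ))

/-- admissible data -/
noncomputable def Dx (n r x y k : ℕ) : Finset ((Fin (x + n) → L) × (Fin k → L) × (Fin y → L)) :=
  univ.filter (fun d => 2 * x + 2 * y + k + 2 * (base n k).bad d.2.1 univ ≤ r)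

lemma res_injOn (n r x y k : ℕ) : Set.InjOn (res n x y k) (Bx n r x y k) := by
  rintro g ⟨hg1, hg2, _⟩ g' ⟨hg1', hg2', _⟩ h
  ext1
  · ext1 i
    unfold res at h
    rw [Prod.mk.injEq, Prod.mk.injEq] at h
    obtain ⟨h1, h2, h3⟩ := h
    by_cases c1 : -(x : ℤ) - n ≤ i ∧ i < k + y
    · by_cases c2 : i < 0
      · have := congrFun h1 ⟨(i + x + n).toNat, by omega⟩
        simp only [] at this
        have e : (((i + x + n).toNat : ℕ) : ℤ) - x - n = i := by omega
        rwa [e] at this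
      · by_cases c3 : i < k
        · have := congrFun h2 ⟨i.toNat, by omega⟩
          simp only [] at this
          have e : ((i.toNat : ℕ) : ℤ) = i := by omega
          rwa [e] at this
        · have := congrFun h3 ⟨(i - k).toNat, by omega⟩
          simp only [] at this
          have e : (((i - k).toNat : ℕ) : ℤ) + k = i := by omega
          rwa [e] at this
    · have d1 : g.f i = 0 := by
        by_contra hne; exact c1 (hg2 i hne)
      have d2 : g'.f i = 0 := by
        by_contra hne; exact c1 (hg2' i hne)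
      rw [d1, d2]
  · rw [hg1, hg1']

lemma Bx_finite (n r x y k : ℕ) : (Bx n r x y k).Finite :=
  Set.Finite.of_finite_image (Set.toFinite _) (res_injOn n r x y k)

lemma Bx_card (n r x y k : ℕ) : (Bx n r x y k).ncard ≤ (Dx n r x y k).card := by
  rw [← Set.ncard_coe_finset]
  apply Set.ncard_le_ncard_of_injOn (res n x y k)
  · rintro g ⟨_, _, h⟩
    simp only [Dx, Finset.coe_filter, Finset.mem_univ, true_and, Set.mem_ofPred_eq]
    exact h
  · exact res_injOn n r x y k

lemma card_fin_L (a : ℕ) : (Fintype.card (Fin a → L) : ℝ) = 32 ^ a := by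
  rw [Fintype.card_fun, card_L, Fintype.card_fin]; push_cast; rfl

lemma Dx_card (n r x y k : ℕ) {z : ℝ} (hz : 0 < z) (hz1 : z ≤ 1) (h32 : 32 * z ^ 2 ≤ 1) :
    ((Dx n r x y k).card : ℝ) * z ^ r ≤ 32 ^ n * T n k z := by
  have h1 : ((Dx n r x y k).card : ℝ) * z ^ r ≤
      ∑ d : (Fin (x + n) → L) × (Fin k → L) × (Fin y → L),
        z ^ (2 * x + 2 * y) * z ^ (k + 2 * (base n k).bad d.2.1 univ) := by
    calc ((Dx n r x y k).card : ℝ) * z ^ r = ∑ d ∈ Dx n r x y k, z ^ r := by
          rw [Finset.sum_const, nsmul_eq_mul]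
      _ ≤ ∑ d ∈ Dx n r x y k, z ^ (2 * x + 2 * y) * z ^ (k + 2 * (base n k).bad d.2.1 univ) := by
          apply Finset.sum_le_sum
          intro d hd
          simp only [Dx, Finset.mem_filter, Finset.mem_univ, true_and] at hd
          rw [← pow_add]
          apply pow_le_pow_of_le_one hz.le hz1
          omega
      _ ≤ _ := by
          apply Finset.sum_le_sum_of_subset_of_nonneg (Finset.subset_univ _)
          intro d _ _
          positivity
  refine h1.trans ?_
  rw [← Finset.mul_sum, Fintype.sum_prod_type]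
  simp only [Fintype.sum_prod_type, Finset.sum_const, Finset.card_univ, nsmul_eq_mul]
  rw [← Finset.mul_sum, card_fin_L, card_fin_L]
  have h2 : ∑ g : Fin k → L, z ^ (k + 2 * (base n k).bad g univ) = T n k z := rfl
  rw [h2]
  have h3 := T_nonneg n k hz.le
  have h4 : z ^ (2 * x + 2 * y) * (32 ^ (x + n) * (32 ^ y * T n k z)) =
      ((32 * z ^ 2) ^ (x + y)) * (32 ^ n * T n k z) := by
    rw [mul_pow, ← pow_mul]; ring
  rw [h4]
  calc ((32 * z ^ 2) ^ (x + y)) * (32 ^ n * T n k z) ≤ 1 * (32 ^ n * T n k z) := by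
        apply mul_le_mul_of_nonneg_right _ (by positivity)
        exact pow_le_one₀ (by positivity) h32
    _ = _ := one_mul _

/-- the part of the ball with nonnegative translation -/
lemma ball_subset (n r : ℕ) (hn : 1 ≤ n) :
    {g ∈ ball (S n) r | 0 ≤ g.k} ⊆
      ⋃ p ∈ (range (r + 1) ×ˢ (range (r + 1) ×ˢ range (r + 1)) : Finset (ℕ × ℕ × ℕ)),
        Bx n r p.1 p.2.1 p.2.2 := by
  rintro g ⟨⟨l, hl, hS, hp⟩, hk⟩
  obtain ⟨k, hk'⟩ := Int.eq_ofNat_of_zero_le hk
  have hI := Inv_of_Len n l.length g ⟨l, rfl, hS, hp⟩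
  obtain ⟨x, y, h1, h2⟩ := Inv_bound n l.length hn g hI k hk'
  simp only [Set.mem_iUnion, Finset.mem_product, Finset.mem_range, exists_prop]
  refine ⟨(x, y, k), ⟨by simp only []; omega, by simp only []; omega, by simp only []; omega⟩,
    hk', h1, by simp only []; omega⟩

lemma biUnion_ncard {ι : Type*} (F : Finset ι) (s : ι → Set G) :
    (⋃ i ∈ F, s i).ncard ≤ ∑ i ∈ F, (s i).ncard := by
  classical
  induction F using Finset.induction with
  | empty => simp
  | insert a F ha ih =>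
    rw [Finset.set_biUnion_insert, Finset.sum_insert ha]
    exact (Set.ncard_union_le _ _).trans (Nat.add_le_add_left ih _)

lemma ball_le (n r w : ℕ) (hn : 1 ≤ n) (hw : 1 ≤ w) {z : ℝ} (hz : 0 < z) (h32 : 32 * z ^ 2 ≤ 1)
    (hT : T n w z < 1) :
    ((ball (S n) r).ncard : ℝ) * z ^ r ≤
      (2 * 32 ^ n * ∑ s ∈ range w, T n s z) * ((r + 1 : ℕ) : ℝ) ^ 3 := by
  have hz1 : z ≤ 1 := by nlinarith
  set Bp : Set G := {g ∈ ball (S n) r | 0 ≤ g.k} with hBp
  have hfin : Bp.Finite := (ball_finite (S n) r).subset (fun g hg => hg.1)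
  have h1 : (ball (S n) r).ncard ≤ 2 * Bp.ncard := by
    have hsub : ball (S n) r ⊆ Bp ∪ (fun g => g⁻¹) '' Bp := by
      intro g hg
      by_cases hk : 0 ≤ g.k
      · left; exact ⟨hg, hk⟩
      · right
        refine ⟨g⁻¹, ⟨ball_inv n r g hg, ?_⟩, inv_inv g⟩
        rw [inv_k]; omega
    calc (ball (S n) r).ncard ≤ (Bp ∪ (fun g => g⁻¹) '' Bp).ncard :=
          Set.ncard_le_ncard hsub (hfin.union (hfin.image _))
      _ ≤ Bp.ncard + ((fun g => g⁻¹) '' Bp).ncard := Set.ncard_union_le _ _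
      _ ≤ Bp.ncard + Bp.ncard := Nat.add_le_add_left (Set.ncard_image_le hfin) _
      _ = 2 * Bp.ncard := by ring
  set F : Finset (ℕ × ℕ × ℕ) := range (r + 1) ×ˢ (range (r + 1) ×ˢ range (r + 1)) with hF
  have hfin2 : (⋃ p ∈ F, Bx n r p.1 p.2.1 p.2.2).Finite := by
    apply Set.Finite.biUnion F.finite_toSet
    intro p _
    exact Bx_finite _ _ _ _ _
  have h2 : Bp.ncard ≤ ∑ p ∈ F, (Dx n r p.1 p.2.1 p.2.2).card := by
    calc Bp.ncard ≤ (⋃ p ∈ F, Bx n r p.1 p.2.1 p.2.2).ncard :=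
          Set.ncard_le_ncard (ball_subset n r hn) hfin2
      _ ≤ ∑ p ∈ F, (Bx n r p.1 p.2.1 p.2.2).ncard := biUnion_ncard F _
      _ ≤ _ := Finset.sum_le_sum (fun p _ => Bx_card _ _ _ _ _)
  have h3 : (Bp.ncard : ℝ) * z ^ r ≤ (((r + 1 : ℕ) : ℝ) ^ 3) *
      (32 ^ n * ∑ s ∈ range w, T n s z) := by
    calc (Bp.ncard : ℝ) * z ^ r ≤ ((∑ p ∈ F, (Dx n r p.1 p.2.1 p.2.2).card : ℕ) : ℝ) * z ^ r := by
          apply mul_le_mul_of_nonneg_right _ (by positivity)
          exact_mod_cast h2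
      _ = ∑ p ∈ F, ((Dx n r p.1 p.2.1 p.2.2).card : ℝ) * z ^ r := by
          push_cast; rw [Finset.sum_mul]
      _ ≤ ∑ p ∈ F, (32 ^ n * ∑ s ∈ range w, T n s z) := by
          apply Finset.sum_le_sum
          intro p _
          refine (Dx_card n r p.1 p.2.1 p.2.2 hz hz1 h32).trans ?_
          apply mul_le_mul_of_nonneg_left _ (by positivity)
          exact T_bdd n w hw hz.le hz1 hT p.2.2
      _ = _ := by
          rw [Finset.sum_const, nsmul_eq_mul, hF, Finset.card_product, Finset.card_product,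
            Finset.card_range]
          push_cast
          ring
  calc ((ball (S n) r).ncard : ℝ) * z ^ r ≤ (2 * Bp.ncard : ℝ) * z ^ r := by
        apply mul_le_mul_of_nonneg_right _ (by positivity)
        exact_mod_cast h1
    _ = 2 * ((Bp.ncard : ℝ) * z ^ r) := by ring
    _ ≤ 2 * ((((r + 1 : ℕ) : ℝ) ^ 3) * (32 ^ n * ∑ s ∈ range w, T n s z)) := by
        apply mul_le_mul_of_nonneg_left h3 (by norm_num)
    _ = _ := by ring

/-- **(A)** -/
lemma rate_le (n w : ℕ) (hn : 1 ≤ n) (hw : 1 ≤ w) {ρ z : ℝ} (hρ : IsRate (S n) ρ) (hz : 0 < z)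
    (h32 : 32 * z ^ 2 ≤ 1) (hT : T n w z < 1) : ρ ≤ 1 / z := by
  by_contra hcon
  push Not at hcon
  obtain ⟨q, hq1, hq2⟩ := exists_between hcon
  have hq0 : 0 < q := lt_trans (by positivity) hq1
  have hqz : 1 < q * z := by rwa [div_lt_iff₀ hz] at hq1
  have h1 := rate_gt hρ hq0.le hq2
  set C : ℝ := 2 * 32 ^ n * ∑ s ∈ range w, T n s z with hC
  have h2 : ∀ᶠ r : ℕ in atTop, (q * z) ^ r ≤ C * ((r + 1 : ℕ) : ℝ) ^ 3 := by
    filter_upwards [h1] with r hr
    calc (q * z) ^ r = q ^ r * z ^ r := mul_pow _ _ _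
      _ ≤ ((ball (S n) r).ncard : ℝ) * z ^ r := by
          apply mul_le_mul_of_nonneg_right hr (by positivity)
      _ ≤ _ := ball_le n r w hn hw hz h32 hT
  have h3 : Tendsto (fun r : ℕ => (r : ℝ) ^ 3 / (q * z) ^ r) atTop (𝓝 0) :=
    tendsto_pow_const_div_const_pow_of_one_lt 3 hqz
  have h4 : Tendsto (fun r : ℕ => (((r + 1 : ℕ) : ℝ) ^ 3 / (q * z) ^ (r + 1))) atTop (𝓝 0) :=
    h3.comp (tendsto_add_atTop_nat 1)
  have h5 : Tendsto (fun r : ℕ => (C * (q * z)) * (((r + 1 : ℕ) : ℝ) ^ 3 / (q * z) ^ (r + 1)))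
      atTop (𝓝 0) := by
    have := h4.const_mul (C * (q * z))
    rwa [mul_zero] at this
  have h6 : ∀ᶠ r : ℕ in atTop, 1 ≤ (C * (q * z)) * (((r + 1 : ℕ) : ℝ) ^ 3 / (q * z) ^ (r + 1)) := by
    filter_upwards [h2] with r hr
    have hp : 0 < (q * z) ^ r := by positivity
    have : (C * (q * z)) * (((r + 1 : ℕ) : ℝ) ^ 3 / (q * z) ^ (r + 1)) =
        (C * ((r + 1 : ℕ) : ℝ) ^ 3) / (q * z) ^ r := by
      rw [pow_succ, mul_div_assoc', div_eq_div_iff (by positivity) (by positivity)]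
      ring
    rw [this, le_div_iff₀ hp, one_mul]
    exact hr
  have h7 := h5.eventually_lt_const (show (0:ℝ) < 1 by norm_num)
  obtain ⟨r, hr1, hr2⟩ := (h6.and h7).exists
  linarith

end Pool.Agent.H341.GR
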