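import Pool.Agent.H341.GR.Sys

/-!
The base system on `Fin w`, its cyclic cover, and the comparison between different `n`.
-/

namespace Pool.Agent.H341.GR

open Finset

/-- the shift of type `τ` -/
def dd (n : ℕ) (τ : Bool) : ℕ := if τ then n else 1

/-- the base system on `Fin w` -/
def base (n w : ℕ) : Sys (Fin w) where
  E τ x y := (y : ℕ) = x + dd n τ
  func := by
    intro τ x y y' h1 h2
    ext
    omega
  inj := by
    intro τ x x' y h1 h2
    ext
    omega

/-- the cyclic cover with `k + 1` sheets -/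
def cov (n w k : ℕ) : Sys (Fin w × Fin (k + 1)) where
  E τ x y := (y.1 : ℕ) = x.1 + dd n τ ∧ y.2 = x.2 + (if τ then 1 else 0)
  func := by
    intro τ x y y' h1 h2
    ext1
    · ext; omega
    · rw [h1.2, h2.2]
  inj := by
    intro τ x x' y h1 h2
    ext1
    · ext; omega
    · exact add_right_cancel (h1.2.symm.trans h2.2)

namespace Sys

variable {X Y : Type*} [DecidableEq X] [Fintype X] [DecidableEq Y] [Fintype Y]

omit [Fintype X] [DecidableEq Y] in
lemma adj_cover (S : Sys X) (T : Sys Y) (π : Y → X) (V : Finset X)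
    (h1 : ∀ τ y, ∀ u ∈ V, S.E τ (π y) u → ∃ y', π y' = u ∧ T.E τ y y')
    (h2 : ∀ τ y, ∀ u ∈ V, S.E τ u (π y) → ∃ y', π y' = u ∧ T.E τ y' y) :
    ∀ y, ∀ u ∈ V, S.adj (π y) u ≤ ∑ y' ∈ univ.filter (fun y' => π y' = u), T.adj y y' := by
  intro y u hu
  unfold adj
  rw [Finset.sum_comm]
  apply Finset.sum_le_sum
  intro τ _
  rw [Finset.sum_add_distrib]
  apply Nat.add_le_add
  · by_cases h : S.E τ (π y) u
    · obtain ⟨y', hy', hE⟩ := h1 τ y u hu h
      rw [ind_pos h]
      calc 1 = ind (T.E τ y y') := (ind_pos hE).symm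
        _ ≤ _ := Finset.single_le_sum (f := fun y' => ind (T.E τ y y')) (fun _ _ => Nat.zero_le _)
              (by simp [hy'])
    · rw [ind_neg h]; exact Nat.zero_le _
  · by_cases h : S.E τ u (π y)
    · obtain ⟨y', hy', hE⟩ := h2 τ y u hu h
      rw [ind_pos h]
      calc 1 = ind (T.E τ y' y) := (ind_pos hE).symm
        _ ≤ _ := Finset.single_le_sum (f := fun y' => ind (T.E τ y' y)) (fun _ _ => Nat.zero_le _)
              (by simp [hy'])
    · rw [ind_neg h]; exact Nat.zero_le _

end Sys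

lemma RecSys.le_pow {κ : ℝ} {X : Type*} [Fintype X] [DecidableEq X] (R : RecSys κ X)
    (h0 : 0 ≤ κ) (h1 : κ ≤ 1 / 16) (U : Finset X) : ∀ V : Finset X, Disjoint V U →
    R.P V ≤ 2 ^ U.card * R.P (V ∪ U) := by
  induction U using Finset.induction with
  | empty => intro V _; simp
  | insert a U ha ih =>
    intro V hV
    rw [Finset.disjoint_insert_right] at hV
    have h2 := ih V hV.2
    have h3 := R.le_two h0 h1 (V ∪ U) a (by
      rw [Finset.mem_union]; push Not; exact ⟨hV.1, ha⟩)
    rw [Finset.card_insert_of_notMem ha, Finset.union_insert, pow_succ]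
    calc R.P V ≤ 2 ^ U.card * R.P (V ∪ U) := h2
      _ ≤ 2 ^ U.card * (2 * R.P (insert a (V ∪ U))) := by
          apply mul_le_mul_of_nonneg_left h3; positivity
      _ = _ := by ring

section cover

variable (y : ℝ) (hy0 : 0 ≤ y) (hy1 : y ≤ 1) (n w k : ℕ)

/-- initial segment -/
def Vs (w i : ℕ) : Finset (Fin w) := univ.filter (fun x => (x : ℕ) < i)

/-- initial segment of the cover -/
def Ws (w k i j : ℕ) : Finset (Fin w × Fin (k + 1)) :=
  univ.filter (fun x => (x.1 : ℕ) < i ∨ ((x.1 : ℕ) = i ∧ (x.2 : ℕ) < j))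

lemma Vs_succ (i : ℕ) (hi : i < w) : Vs w (i + 1) = insert ⟨i, hi⟩ (Vs w i) := by
  ext x
  simp only [Vs, Finset.mem_filter, Finset.mem_univ, true_and, Finset.mem_insert, Fin.ext_iff]
  omega

lemma Ws_succ (i j : ℕ) (hi : i < w) (hj : j < k + 1) :
    Ws w k i (j + 1) = insert (⟨i, hi⟩, ⟨j, hj⟩) (Ws w k i j) := by
  ext x
  simp only [Ws, Finset.mem_filter, Finset.mem_univ, true_and, Finset.mem_insert, Prod.ext_iff,
    Fin.ext_iff]
  omega

lemma Ws_last (i : ℕ) : Ws w k i (k + 1) = Ws w k (i + 1) 0 := by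
  ext x
  have := x.2.isLt
  simp only [Ws, Finset.mem_filter, Finset.mem_univ, true_and]
  omega

lemma notMem_Vs (i : ℕ) (hi : i < w) : (⟨i, hi⟩ : Fin w) ∉ Vs w i := by
  simp [Vs]

lemma notMem_Ws (i j : ℕ) (hi : i < w) (hj : j < k + 1) :
    ((⟨i, hi⟩, ⟨j, hj⟩) : Fin w × Fin (k + 1)) ∉ Ws w k i j := by
  simp [Ws]

lemma kap_nonneg (hy1 : y ≤ 1) : 0 ≤ (1 - y) / 128 := by linarith

lemma kap_le (hy0 : 0 ≤ y) : (1 - y) / 128 ≤ 1 / 16 := by linarith

/-- fiber adjacency for the cover -/
lemma cov_adj (V : Finset (Fin w)) : ∀ x : Fin w × Fin (k + 1), ∀ u ∈ V,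
    (base n w).adj x.1 u ≤ ∑ x' ∈ univ.filter (fun x' : Fin w × Fin (k + 1) => x'.1 = u),
      (cov n w k).adj x x' := by
  apply Sys.adj_cover (base n w) (cov n w k) (fun x => x.1) V
  · intro τ x u _ h
    exact ⟨(u, x.2 + (if τ then 1 else 0)), rfl, h, rfl⟩
  · intro τ x u _ h
    exact ⟨(u, x.2 - (if τ then 1 else 0)), rfl, h, by simp⟩

/-- ratio in the cover -/
lemma cov_ratio (hy0 : 0 ≤ y) (hy1 : y ≤ 1) (i : ℕ) (hi : i < w)
    (W : Finset (Fin w × Fin (k + 1)))
    (hW : ∀ x : Fin w × Fin (k + 1), (x.1 : ℕ) < i → x ∈ W) (j : Fin (k + 1))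
    (hj : (⟨i, hi⟩, j) ∉ W) :
    ((cov n w k).recSys y).r (⟨i, hi⟩, j) W ≤ ((base n w).recSys y).r ⟨i, hi⟩ (Vs w i) := by
  apply ((base n w).recSys y).cover' (kap_nonneg y hy1) (kap_le y hy0) ((cov n w k).recSys y)
    (fun x => x.1) (Vs w i) (cov_adj n w k _) W
  · intro x hx
    simp only [Vs, Finset.mem_filter, Finset.mem_univ, true_and] at hx
    exact hW x hx
  · exact hj
  · exact notMem_Vs w i hi

/-- the path used for the gap -/
def path (w k : ℕ) (j : Fin (k + 1)) (a : ℕ) : (len : ℕ) → a + len ≤ w → List (Fin w × Fin (k + 1))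
  | 0, _ => []
  | len + 1, h => (⟨a, by omega⟩, j) :: path w k j (a + 1) len (by omega)

lemma path_length (j : Fin (k + 1)) : ∀ (len a : ℕ) (h : a + len ≤ w),
    (path w k j a len h).length = len := by
  intro len
  induction len with
  | zero => intro a h; rfl
  | succ len ih => intro a h; simp [path, ih]

lemma mem_path (j : Fin (k + 1)) : ∀ (len a : ℕ) (h : a + len ≤ w) (x : Fin w × Fin (k + 1)),
    x ∈ path w k j a len h → a ≤ (x.1 : ℕ) ∧ (x.1 : ℕ) < a + len ∧ x.2 = j := by
  intro len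
  induction len with
  | zero => intro a h x hx; simp [path] at hx
  | succ len ih =>
    intro a h x hx
    simp only [path, List.mem_cons] at hx
    rcases hx with hx | hx
    · subst hx; simp
    · have := ih (a + 1) (by omega) x hx
      omega

lemma path_nodup (j : Fin (k + 1)) : ∀ (len a : ℕ) (h : a + len ≤ w),
    (path w k j a len h).Nodup := by
  intro len
  induction len with
  | zero => intro a h; simp [path]
  | succ len ih =>
    intro a h
    simp only [path, List.nodup_cons]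
    refine ⟨?_, ih _ _⟩
    intro hx
    have := mem_path w k j len (a + 1) (by omega) _ hx
    simp at this

lemma path_chain (n : ℕ) (j : Fin (k + 1)) : ∀ (len a : ℕ) (h : a + len < w)
    (x : Fin w × Fin (k + 1)), 1 ≤ (cov n w k).adj x (⟨a, by omega⟩, j) →
    List.IsChain (fun u v => 1 ≤ (cov n w k).adj u v)
      (x :: (path w k j a len (by omega) ++ [(⟨a + len, h⟩, j)])) := by
  intro len
  induction len with
  | zero =>
    intro a h x hx
    simpa [path] using hx
  | succ len ih =>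
    intro a h x hx
    simp only [path, List.cons_append]
    rw [List.isChain_cons_cons]
    refine ⟨hx, ?_⟩
    have h2 := ih (a + 1) (by omega) (⟨a, by omega⟩, j) (by
      unfold Sys.adj
      have : ind ((cov n w k).E false (⟨a, by omega⟩, j) (⟨a + 1, by omega⟩, j)) = 1 := by
        apply ind_pos
        simp [cov, dd]
      rw [Fintype.sum_bool, this]
      omega)
    have e : a + 1 + len = a + (len + 1) := by ring
    simp only [e] at h2
    exact h2

lemma cov_gap (hy0 : 0 ≤ y) (hy1 : y ≤ 1) (i j : ℕ) (hi : i < w) (hni : n ≤ i) (hj : j + 1 < k + 1) :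
    ((cov n w k).recSys y).r (⟨i, hi⟩, ⟨j + 1, hj⟩) (Ws w k i (j + 1)) ≤
      ((base n w).recSys y).r ⟨i, hi⟩ (Vs w i) * (1 - ((1 - y) / 128) ^ (n + 1)) := by
  have h0 := kap_nonneg y hy1
  have h1 := kap_le y hy0
  set R := (cov n w k).recSys y with hR
  set B := (base n w).recSys y with hB
  rw [Ws_succ w k i j hi (by omega)]
  have hlen : i - n + n = i := by omega
  have hlt : i - n + n < w := by omega
  have hch := path_chain w k n (⟨j, by omega⟩ : Fin (k + 1)) n (i - n) hlt (⟨i, hi⟩, ⟨j + 1, hj⟩) (by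
      unfold Sys.adj
      have : ind ((cov n w k).E true (⟨i - n, by omega⟩, ⟨j, by omega⟩) (⟨i, hi⟩, ⟨j + 1, hj⟩))
          = 1 := by
        apply ind_pos
        refine ⟨?_, ?_⟩
        · simp only [dd, if_true]; omega
        · simp only [if_true]
          ext
          rw [Fin.val_add_one_of_lt]
          rw [Fin.lt_def]
          simp only [Fin.val_last]
          omega
      rw [Fintype.sum_bool, this]
      omega)
  have hgap := R.gap h0 h1 (⟨i, hi⟩, ⟨j, by omega⟩)
    (path w k ⟨j, by omega⟩ (i - n) n (by omega)) (⟨i, hi⟩, ⟨j + 1, hj⟩) (Ws w k i j)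
    (notMem_Ws w k i j hi (by omega))
    (by
      intro h
      simp only [Prod.mk.injEq, Fin.mk.injEq, true_and] at h
      omega)
    (by
      simp only [Ws, Finset.mem_filter, Finset.mem_univ, true_and]
      omega)
    (path_nodup w k _ _ _ _)
    (by
      intro a ha
      have := mem_path w k _ _ _ _ _ ha
      simp only [Ws, Finset.mem_filter, Finset.mem_univ, true_and]
      omega)
    (by
      simp only [hlen] at hch
      exact hch)
  rw [path_length] at hgap
  have h3 : R.r (⟨i, hi⟩, ⟨j + 1, hj⟩) (Ws w k i j) ≤ B.r ⟨i, hi⟩ (Vs w i) := by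
    apply cov_ratio y n w k hy0 hy1 i hi
    · intro x hx
      simp only [Ws, Finset.mem_filter, Finset.mem_univ, true_and]
      omega
    · simp only [Ws, Finset.mem_filter, Finset.mem_univ, true_and]
      omega
  have h4 : B.r ⟨i, hi⟩ (Vs w i) ≤ 1 := B.r_le_one h0 h1 _ _ (notMem_Vs w i hi)
  have h5 : 0 ≤ ((1 - y) / 128) ^ (n + 1) := pow_nonneg h0 _
  nlinarith

lemma RecSys.P_insert {κ : ℝ} {X : Type*} [Fintype X] [DecidableEq X] (R : RecSys κ X)
    (h0 : 0 ≤ κ) (h1 : κ ≤ 1 / 16) (v : X) (V : Finset X) :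
    R.P (insert v V) = R.r v V * R.P V := by
  unfold RecSys.r
  rw [div_mul_cancel₀]
  exact (R.pos h0 h1 V).ne'

lemma c_nonneg (hy0 : 0 ≤ y) (hy1 : y ≤ 1) : 0 ≤ 1 - ((1 - y) / 128) ^ (n + 1) := by
  have : ((1 - y) / 128) ^ (n + 1) ≤ 1 := by
    apply pow_le_one₀ (kap_nonneg y hy1)
    linarith [kap_le y hy0]
  linarith

/-- one column -/
lemma cov_col (hy0 : 0 ≤ y) (hy1 : y ≤ 1) (i : ℕ) (hi : i < w) : ∀ j, j ≤ k + 1 →
    ((cov n w k).recSys y).P (Ws w k i j) ≤ ((cov n w k).recSys y).P (Ws w k i 0) *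
      (((base n w).recSys y).r ⟨i, hi⟩ (Vs w i)) ^ j *
      (1 - ((1 - y) / 128) ^ (n + 1)) ^ (if n ≤ i then j - 1 else 0) := by
  have h0 := kap_nonneg y hy1
  have h1 := kap_le y hy0
  have hc := c_nonneg y n hy0 hy1
  set R := (cov n w k).recSys y with hR
  set B := (base n w).recSys y with hB
  intro j
  induction j with
  | zero => intro _; simp
  | succ j ih =>
    intro hj
    have ih' := ih (by omega)
    rw [Ws_succ w k i j hi (by omega), R.P_insert h0 h1]
    have hr0 : 0 < B.r ⟨i, hi⟩ (Vs w i) := B.r_pos h0 h1 _ _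
    have hP0 : 0 < R.P (Ws w k i 0) := R.pos h0 h1 _
    by_cases hc1 : n ≤ i ∧ 0 < j
    · obtain ⟨hni, hj0⟩ := hc1
      obtain ⟨j', rfl⟩ : ∃ j', j = j' + 1 := ⟨j - 1, by omega⟩
      have h2 := cov_gap y n w k hy0 hy1 i j' hi hni (by omega)
      rw [if_pos hni] at ih' ⊢
      calc R.r (⟨i, hi⟩, ⟨j' + 1, by omega⟩) (Ws w k i (j' + 1)) * R.P (Ws w k i (j' + 1))
          ≤ (B.r ⟨i, hi⟩ (Vs w i) * (1 - ((1 - y) / 128) ^ (n + 1))) *
            (R.P (Ws w k i 0) * (B.r ⟨i, hi⟩ (Vs w i)) ^ (j' + 1) *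
              (1 - ((1 - y) / 128) ^ (n + 1)) ^ (j' + 1 - 1)) := by
            apply mul_le_mul h2 ih' (R.pos h0 h1 _).le
            exact mul_nonneg hr0.le hc
        _ = _ := by
            simp only [Nat.add_sub_cancel]
            ring
    · have h2 : R.r (⟨i, hi⟩, ⟨j, by omega⟩) (Ws w k i j) ≤ B.r ⟨i, hi⟩ (Vs w i) := by
        apply cov_ratio y n w k hy0 hy1 i hi
        · intro x hx
          simp only [Ws, Finset.mem_filter, Finset.mem_univ, true_and]
          omega
        · exact notMem_Ws w k i j hi (by omega)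
      have e1 : (if n ≤ i then j + 1 - 1 else 0) = (if n ≤ i then j - 1 else 0) := by
        split_ifs with h
        · have : ¬ 0 < j := fun h' => hc1 ⟨h, h'⟩
          omega
        · rfl
      rw [e1]
      calc R.r (⟨i, hi⟩, ⟨j, by omega⟩) (Ws w k i j) * R.P (Ws w k i j)
          ≤ B.r ⟨i, hi⟩ (Vs w i) * (R.P (Ws w k i 0) * (B.r ⟨i, hi⟩ (Vs w i)) ^ j *
            (1 - ((1 - y) / 128) ^ (n + 1)) ^ (if n ≤ i then j - 1 else 0)) := by
            apply mul_le_mul h2 ih' (R.pos h0 h1 _).le hr0.le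
        _ = _ := by ring

lemma cov_all (hy0 : 0 ≤ y) (hy1 : y ≤ 1) : ∀ i, i ≤ w →
    ((cov n w k).recSys y).P (Ws w k i 0) ≤ (((base n w).recSys y).P (Vs w i)) ^ (k + 1) *
      (1 - ((1 - y) / 128) ^ (n + 1)) ^ (k * (i - n)) := by
  have h0 := kap_nonneg y hy1
  have h1 := kap_le y hy0
  have hc := c_nonneg y n hy0 hy1
  set R := (cov n w k).recSys y with hR
  set B := (base n w).recSys y with hB
  intro i
  induction i with
  | zero =>
    intro _
    have e1 : Ws w k 0 0 = ∅ := by ext x; simp [Ws]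
    have e2 : Vs w 0 = ∅ := by ext x; simp [Vs]
    rw [e1, e2, R.empty, B.empty]
    simp
  | succ i ih =>
    intro hi
    have ih' := ih (by omega)
    have h2 := cov_col y n w k hy0 hy1 i (by omega) (k + 1) le_rfl
    rw [Ws_last] at h2
    rw [Vs_succ w i (by omega), B.P_insert h0 h1]
    have hr0 : 0 < B.r ⟨i, by omega⟩ (Vs w i) := B.r_pos h0 h1 _ _
    have hexp : k * (i + 1 - n) = k * (i - n) + (if n ≤ i then k + 1 - 1 else 0) := by
      split_ifs with h
      · have : i + 1 - n = (i - n) + 1 := by omega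
        rw [this, Nat.add_sub_cancel]; ring
      · have h3 : i + 1 - n = 0 := by omega
        have h4 : i - n = 0 := by omega
        rw [h3, h4, add_zero]
    rw [hexp, pow_add, mul_pow]
    calc R.P (Ws w k (i + 1) 0) ≤ _ := h2
      _ ≤ ((B.P (Vs w i)) ^ (k + 1) * (1 - ((1 - y) / 128) ^ (n + 1)) ^ (k * (i - n))) *
            (B.r ⟨i, by omega⟩ (Vs w i)) ^ (k + 1) *
            (1 - ((1 - y) / 128) ^ (n + 1)) ^ (if n ≤ i then k + 1 - 1 else 0) := by
          apply mul_le_mul_of_nonneg_right _ (pow_nonneg hc _)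
          apply mul_le_mul_of_nonneg_right ih' (pow_nonneg hr0.le _)
      _ = _ := by ring

/-- **L5** -/
lemma cov_univ (hy0 : 0 ≤ y) (hy1 : y ≤ 1) :
    ((cov n w k).recSys y).P univ ≤ (((base n w).recSys y).P univ) ^ (k + 1) *
      (1 - ((1 - y) / 128) ^ (n + 1)) ^ (k * (w - n)) := by
  have h := cov_all y n w k hy0 hy1 w le_rfl
  have e1 : Ws w k w 0 = univ := by ext x; simp [Ws]
  have e2 : Vs w w = univ := by ext x; simp [Vs]
  rwa [e1, e2] at h

/-- the window map -/
def win (x : Fin (k * w)) : Fin w × Fin (k + 1) :=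
  (⟨x % w, Nat.mod_lt _ (Nat.pos_of_ne_zero (by rintro rfl; exact absurd x.isLt (by simp)))⟩,
    ⟨x / w, by
      have hw : 0 < w := Nat.pos_of_ne_zero (by rintro rfl; exact absurd x.isLt (by simp))
      have : (x : ℕ) / w < k := by
        rw [Nat.div_lt_iff_lt_mul hw]; exact x.isLt
      omega⟩)

lemma win_val1 (x : Fin (k * w)) : ((win w k x).1 : ℕ) = x % w := rfl

lemma win_val2 (x : Fin (k * w)) : ((win w k x).2 : ℕ) = x / w := rfl

lemma win_inj : Function.Injective (win w k) := by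
  intro x x' h
  have h1 : ((win w k x).1 : ℕ) = (win w k x').1 := by rw [h]
  have h2 : ((win w k x).2 : ℕ) = (win w k x').2 := by rw [h]
  rw [win_val1, win_val1] at h1
  rw [win_val2, win_val2] at h2
  ext
  rw [← Nat.mod_add_div (x : ℕ) w, ← Nat.mod_add_div (x' : ℕ) w, h1, h2]

lemma win_eq (x x' : Fin (k * w)) (a b : ℕ) (ha : ((win w k x').1 : ℕ) = (win w k x).1 + a)
    (hb : ((win w k x').2 : ℕ) = (win w k x).2 + b) : (x' : ℕ) = x + (a + w * b) := by
  rw [win_val1, win_val1] at ha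
  rw [win_val2, win_val2] at hb
  rw [← Nat.mod_add_div (x : ℕ) w, ← Nat.mod_add_div (x' : ℕ) w, ha, hb]
  ring

lemma win_lt (x : Fin (k * w)) : ((win w k x).2 : ℕ) < k := by
  have hw : 0 < w := Nat.pos_of_ne_zero (by rintro rfl; exact absurd x.isLt (by simp))
  rw [win_val2, Nat.div_lt_iff_lt_mul hw]; exact x.isLt

lemma win_E (τ : Bool) (x x' : Fin (k * w)) (h : (cov n w k).E τ (win w k x) (win w k x')) :
    (base (w + n) (k * w)).E τ x x' := by
  obtain ⟨h1, h2⟩ := h
  cases τ
  · simp only [Bool.false_eq_true, if_false, add_zero] at h2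
    have := win_eq w k x x' 1 0 (by simpa [dd] using h1) (by rw [h2]; simp)
    simp only [base, dd, Bool.false_eq_true, if_false]
    omega
  · simp only [if_true] at h2
    have h3 : ((win w k x').2 : ℕ) = (win w k x).2 + 1 := by
      rw [h2, Fin.val_add_one_of_lt]
      rw [Fin.lt_def]
      simp only [Fin.val_last]
      exact win_lt w k x
    have := win_eq w k x x' n 1 (by simpa [dd] using h1) h3
    simp only [base, dd, if_true]
    omega

lemma win_le (hy0 : 0 ≤ y) (hy1 : y ≤ 1) (W : Finset (Fin (k * w))) :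
    ((base (w + n) (k * w)).recSys y).P W ≤ ((cov n w k).recSys y).P (W.image (win w k)) := by
  have h0 := kap_nonneg y hy1
  have h1 := kap_le y hy0
  set R := (cov n w k).recSys y with hR
  set B := (base (w + n) (k * w)).recSys y with hB
  induction W using Finset.induction with
  | empty => rw [Finset.image_empty, R.empty, B.empty]
  | insert a W ha ih =>
    rw [Finset.image_insert, R.P_insert h0 h1, B.P_insert h0 h1]
    apply mul_le_mul _ ih (B.pos h0 h1 _).le (R.r_pos h0 h1 _ _).le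
    apply R.cover' h0 h1 B (win w k)
    · apply Sys.adj_cover (cov n w k) (base (w + n) (k * w)) (win w k)
      · intro τ x u hu h
        rw [Finset.mem_image] at hu
        obtain ⟨x', _, rfl⟩ := hu
        exact ⟨x', rfl, win_E n w k τ x x' h⟩
      · intro τ x u hu h
        rw [Finset.mem_image] at hu
        obtain ⟨x', _, rfl⟩ := hu
        exact ⟨x', rfl, win_E n w k τ x' x h⟩
    · intro x hx
      rw [Finset.mem_image] at hx
      obtain ⟨x', hx', he⟩ := hx
      rwa [← win_inj w k he]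
    · exact ha
    · intro hx
      rw [Finset.mem_image] at hx
      obtain ⟨x', hx', he⟩ := hx
      rw [win_inj w k he] at hx'
      exact ha hx'

/-- **L6** -/
lemma window (hy0 : 0 ≤ y) (hy1 : y ≤ 1) :
    (base (w + n) (k * w)).Pr y univ ≤ 2 ^ w * ((base n w).Pr y univ ^ (k + 1) *
      (1 - ((1 - y) / 128) ^ (n + 1)) ^ (k * (w - n))) := by
  have h0 := kap_nonneg y hy1
  have h1 := kap_le y hy0
  have h2 := win_le y n w k hy0 hy1 univ
  have h3 := ((cov n w k).recSys y).le_pow h0 h1 (univ \ univ.image (win w k))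
    (univ.image (win w k)) Finset.disjoint_sdiff
  have e1 : (univ \ univ.image (win w k)).card = w := by
    rw [Finset.card_sdiff_of_subset (Finset.subset_univ _),
      Finset.card_image_of_injective _ (win_inj w k)]
    simp only [Finset.card_univ, Fintype.card_prod, Fintype.card_fin]
    rw [mul_add, mul_one, mul_comm w k]
    omega
  rw [Finset.union_sdiff_of_subset (Finset.subset_univ _), e1] at h3
  have h4 := cov_univ y n w k hy0 hy1
  calc (base (w + n) (k * w)).Pr y univ ≤ _ := h2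
    _ ≤ _ := h3
    _ ≤ _ := mul_le_mul_of_nonneg_left h4 (by positivity)

end cover

end Pool.Agent.H341.GR
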