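import Pool.Agent.H341.GR.Count

/-!
For every `n ≥ 1` there is `m > n` such that the rate of `S m` is smaller than the rate of `S n`.
-/

namespace Pool.Agent.H341.GR

open Finset Filter Topology

lemma Pr_ge (n k : ℕ) (y : ℝ) (hy0 : 0 ≤ y) (hy1 : y ≤ 1) :
    1 ≤ 2 ^ k * (base n k).Pr y univ := by
  have h := ((base n k).recSys y).le_pow (kap_nonneg y hy1) (kap_le y hy0) univ ∅
    (Finset.disjoint_empty_left _)
  rw [((base n k).recSys y).empty, Finset.empty_union, Finset.card_univ, Fintype.card_fin] at h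
  exact h

lemma Pr_le_one (n k : ℕ) (y : ℝ) (hy0 : 0 ≤ y) (hy1 : y ≤ 1) :
    (base n k).Pr y univ ≤ 1 := by
  have h0 := kap_nonneg y hy1
  have h1 := kap_le y hy0
  have : ∀ V : Finset (Fin k), ((base n k).recSys y).P V ≤ 1 := by
    intro V
    induction V using Finset.induction with
    | empty => rw [((base n k).recSys y).empty]
    | insert a V ha ih => exact (((base n k).recSys y).insert_le h0 h1 V a ha).trans ih
  exact this univ

lemma Pr_pos (n k : ℕ) (y : ℝ) (hy0 : 0 ≤ y) (hy1 : y ≤ 1) :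
    0 < (base n k).Pr y univ :=
  ((base n k).recSys y).pos (kap_nonneg y hy1) (kap_le y hy0) univ

lemma rate_ge (n : ℕ) (hn : 1 ≤ n) {ρ : ℝ} (hρ : IsRate (S n) ρ) (hρ1 : 1 ≤ ρ) : 16 ≤ ρ := by
  by_contra hcon
  push Not at hcon
  have h1 := T_tendsto n hn hρ hρ1 (show (0:ℝ) < 1 / 16 by norm_num) (by linarith)
  have h2 := h1.eventually_lt_const (show (0:ℝ) < 1 by norm_num)
  obtain ⟨k, hk⟩ := h2.exists
  rw [T_eq] at hk
  have h3 := Pr_ge n k ((1/16:ℝ) ^ 2) (by norm_num) (by norm_num)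
  have e : (32 * (1 / 16) : ℝ) ^ k = 2 ^ k := by norm_num
  rw [e] at hk
  linarith

lemma T_scale (n w : ℕ) {z z' : ℝ} (hz : 0 < z) (hz' : z ≤ z') :
    T n w z' ≤ (z' / z) ^ (3 * w) * T n w z := by
  unfold T
  rw [Finset.mul_sum]
  apply Finset.sum_le_sum
  intro g _
  have h1 : 1 ≤ z' / z := by rwa [one_le_div hz]
  have h2 : z' ^ (w + 2 * (base n w).bad g univ) = (z' / z) ^ (w + 2 * (base n w).bad g univ) *
      z ^ (w + 2 * (base n w).bad g univ) := by
    rw [← mul_pow, div_mul_cancel₀ _ hz.ne']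
  rw [h2]
  apply mul_le_mul_of_nonneg_right _ (by positivity)
  apply pow_le_pow_right₀ h1
  have := bad_le_card n w g
  omega

lemma T_window (n w k : ℕ) {z δ : ℝ} (hz : 0 < z) (hz2 : z ^ 2 ≤ 1 / 2)
    (hδ : δ ≤ (1 / 256) ^ (n + 1)) (hnw : n ≤ w) :
    T (w + n) (k * w) z ≤ 2 ^ w * (T n w z * (1 - δ) ^ (w - n)) ^ k := by
  have hy0 : 0 ≤ z ^ 2 := by positivity
  have hy1 : z ^ 2 ≤ 1 := by linarith
  have h1 := window (z ^ 2) n w k hy0 hy1
  rw [T_eq]
  have hc0 := c_nonneg (z ^ 2) n hy0 hy1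
  have hc : 1 - ((1 - z ^ 2) / 128) ^ (n + 1) ≤ 1 - δ := by
    have : (1 / 256 : ℝ) ^ (n + 1) ≤ ((1 - z ^ 2) / 128) ^ (n + 1) := by
      apply pow_le_pow_left₀ (by norm_num)
      linarith
    linarith
  have hP0 := Pr_pos n w (z ^ 2) hy0 hy1
  have hP1 := Pr_le_one n w (z ^ 2) hy0 hy1
  calc (32 * z) ^ (k * w) * (base (w + n) (k * w)).Pr (z ^ 2) univ
      ≤ (32 * z) ^ (k * w) * (2 ^ w * ((base n w).Pr (z ^ 2) univ ^ (k + 1) *
        (1 - ((1 - z ^ 2) / 128) ^ (n + 1)) ^ (k * (w - n)))) := by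
        apply mul_le_mul_of_nonneg_left h1 (by positivity)
    _ = 2 ^ w * ((base n w).Pr (z ^ 2) univ * (((32 * z) ^ w * (base n w).Pr (z ^ 2) univ) *
        (1 - ((1 - z ^ 2) / 128) ^ (n + 1)) ^ (w - n)) ^ k) := by
        generalize (base n w).Pr (z ^ 2) univ = P
        generalize 1 - ((1 - z ^ 2) / 128) ^ (n + 1) = c
        generalize 32 * z = u
        rw [mul_comm k w, mul_comm k (w - n), pow_mul u, pow_mul c, pow_succ P, mul_pow, mul_pow]
        ring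
    _ ≤ 2 ^ w * (1 * (((32 * z) ^ w * (base n w).Pr (z ^ 2) univ) *
        (1 - δ) ^ (w - n)) ^ k) := by
        apply mul_le_mul_of_nonneg_left _ (by positivity)
        apply mul_le_mul hP1 _ (by positivity) zero_le_one
        apply pow_le_pow_left₀ (by positivity)
        apply mul_le_mul_of_nonneg_left _ (by positivity)
        apply pow_le_pow_left₀ hc0 hc
    _ = _ := by rw [one_mul, ← T_eq]

lemma eta_ineq (η : ℝ) (h0 : 0 < η) (h1 : η < 1) :
    ((1 + η) / (1 - η)) ^ 3 * (1 - 16 * η) < 1 := by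
  have h2 : 0 < 1 - η := by linarith
  rw [div_pow, div_mul_eq_mul_div, div_lt_one (by positivity)]
  nlinarith [pow_pos h0 2, pow_pos h0 3, pow_pos h0 4]

/-- **The rates decrease along a subsequence.** -/
theorem exists_smaller (n : ℕ) (hn : 1 ≤ n) {ρ : ℝ} (hρ : IsRate (S n) ρ) (hρ1 : 1 ≤ ρ) :
    ∃ m, n < m ∧ ∃ ρ', 1 ≤ ρ' ∧ IsRate (S m) ρ' ∧ ρ' < ρ := by
  have hρ16 := rate_ge n hn hρ hρ1
  have hρ0 : 0 < ρ := by linarith
  set ζ : ℝ := 1 / ρ with hζ
  have hζ0 : 0 < ζ := by positivity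
  have hζ1 : ζ ≤ 1 / 16 := by
    rw [hζ, div_le_div_iff₀ hρ0 (by norm_num)]; linarith
  have hρζ : ρ * ζ = 1 := by rw [hζ]; field_simp
  set δ : ℝ := (1 / 256) ^ (n + 1) with hδ
  have hδ0 : 0 < δ := by positivity
  have hδ1 : δ ≤ 1 / 256 := by
    rw [hδ, pow_succ]
    have : (1 / 256 : ℝ) ^ n ≤ 1 := pow_le_one₀ (by norm_num) (by norm_num)
    linarith
  set η : ℝ := δ / 16 with hη
  have hη0 : 0 < η := by positivity
  have hη1 : η ≤ 1 / 2 := by rw [hη]; linarith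
  have hδη : δ = 16 * η := by rw [hη]; ring
  set z : ℝ := ζ * (1 - η) with hz
  set z' : ℝ := ζ * (1 + η) with hz'
  have hz0 : 0 < z := mul_pos hζ0 (by linarith)
  have hz'0 : 0 < z' := mul_pos hζ0 (by linarith)
  have hzz' : z ≤ z' := by rw [hz, hz']; nlinarith
  have hρz : ρ * z < 1 := by
    rw [hz, ← mul_assoc, hρζ]; linarith
  have hz'1 : z' ≤ 3 / 32 := by rw [hz']; nlinarith
  have hR : z' / z = (1 + η) / (1 - η) := by
    rw [hz, hz', mul_div_mul_left _ _ hζ0.ne']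
  set ν : ℝ := ((1 + η) / (1 - η)) ^ 3 * (1 - δ) with hν
  have hν1 : ν < 1 := by
    rw [hν, hδη]
    exact eta_ineq η hη0 (by linarith)
  have hRpos : 0 < (1 + η) / (1 - η) := div_pos (by linarith) (by linarith)
  have hν0 : 0 ≤ ν := mul_nonneg (by positivity) (by linarith)
  have h1 := T_tendsto n hn hρ hρ1 hz0 hρz
  have h2 := h1.eventually_lt_const (show (0:ℝ) < 1 by norm_num)
  have h3 : Tendsto (fun w : ℕ => ν ^ w) atTop (𝓝 0) := tendsto_pow_atTop_nhds_zero_of_lt_one hν0 hν1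
  have h1δ : 0 < 1 - δ := by linarith
  have h4 := h3.eventually_lt_const (show (0:ℝ) < (1 - δ) ^ n by positivity)
  obtain ⟨w, ⟨hw1, hw2⟩, hw3⟩ := ((h2.and h4).and (eventually_ge_atTop (n + 1))).exists
  -- the transfer function at `z'`
  have h5 : T n w z' * (1 - δ) ^ (w - n) < 1 := by
    have e1 := T_scale n w hz0 hzz'
    rw [hR] at e1
    have e2 : T n w z' ≤ ((1 + η) / (1 - η)) ^ (3 * w) := by
      calc T n w z' ≤ _ := e1
        _ ≤ ((1 + η) / (1 - η)) ^ (3 * w) * 1 := by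
            apply mul_le_mul_of_nonneg_left hw1.le (by positivity)
        _ = _ := mul_one _
    have e3 : T n w z' * (1 - δ) ^ (w - n) * (1 - δ) ^ n ≤ ν ^ w := by
      rw [mul_assoc, ← pow_add, Nat.sub_add_cancel (by omega), hν, mul_pow, ← pow_mul]
      apply mul_le_mul_of_nonneg_right e2 (by positivity)
    have e4 : T n w z' * (1 - δ) ^ (w - n) * (1 - δ) ^ n < 1 * (1 - δ) ^ n := by
      rw [one_mul]; exact lt_of_le_of_lt e3 hw2
    exact lt_of_mul_lt_mul_right e4 (by positivity)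
  have h6 : 0 ≤ T n w z' * (1 - δ) ^ (w - n) := mul_nonneg (T_nonneg n w hz'0.le) (by positivity)
  have h7 : Tendsto (fun k : ℕ => 2 ^ w * (T n w z' * (1 - δ) ^ (w - n)) ^ k) atTop (𝓝 0) := by
    have := (tendsto_pow_atTop_nhds_zero_of_lt_one h6 h5).const_mul ((2:ℝ) ^ w)
    rwa [mul_zero] at this
  have h8 := h7.eventually_lt_const (show (0:ℝ) < 1 by norm_num)
  obtain ⟨k, hk1, hk2⟩ := (h8.and (eventually_ge_atTop 1)).exists
  have h9 : T (w + n) (k * w) z' < 1 := by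
    refine lt_of_le_of_lt (T_window n w k hz'0 ?_ hδ.le (by omega)) hk1
    nlinarith
  obtain ⟨ρ', hρ'1, hρ'⟩ := exists_rate (S (w + n))
  refine ⟨w + n, by omega, ρ', hρ'1, hρ', ?_⟩
  have h10 := rate_le (w + n) (k * w) (by omega) (Nat.mul_pos (by omega) (by omega)) hρ' hz'0
    (by nlinarith) h9
  calc ρ' ≤ 1 / z' := h10
    _ < ρ := by
        rw [div_lt_iff₀ hz'0, hz', ← mul_assoc, hρζ]; linarith

end Pool.Agent.H341.GR
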