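import Pool.Agent.H341.GR.Decr

/-!
`S n` generates the group, has 96 elements; the group is metabelian and linear.
-/

namespace Pool.Agent.H341.GR

open Finset
open scoped commutatorElement

/-- lamps only -/
noncomputable def lam : Multiplicative (ℤ →₀ L) →* G where
  toFun f := ⟨f.toAdd, 0⟩
  map_one' := rfl
  map_mul' := by
    intro a b
    ext1
    · rw [mul_f, sh_zero]; rfl
    · rw [mul_k]; rfl

/-- lamps only, additive form -/
noncomputable def lm (f : ℤ →₀ L) : G := ⟨f, 0⟩

lemma lm_add (f g : ℤ →₀ L) : lm (f + g) = lm f * lm g := by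
  ext1
  · rw [mul_f]
    simp only [lm]
    rw [sh_zero]
  · rfl

lemma s_zero_zpow (n : ℕ) (k : ℤ) : (s n 0) ^ k = ⟨0, k⟩ := by
  have h0 : s n 0 = ⟨0, 1⟩ := by unfold s; rw [map_zero]
  have hp : ∀ j : ℕ, (s n 0) ^ j = ⟨0, j⟩ := by
    intro j
    induction j with
    | zero => rw [pow_zero]; rfl
    | succ j ih =>
      rw [pow_succ, ih, h0]
      ext1
      · rw [mul_f]; simp
      · rw [mul_k]; push_cast; rfl
  cases k with
  | ofNat j => rw [Int.ofNat_eq_natCast, zpow_natCast, hp]
  | negSucc j =>
    rw [zpow_negSucc, hp]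
    ext1
    · rw [inv_f]; simp
    · rw [inv_k, Int.negSucc_eq]; push_cast; rfl

lemma closure_S (n : ℕ) : Subgroup.closure (S n : Set G) = ⊤ := by
  set H := Subgroup.closure (S n : Set G) with hH
  have hs : ∀ w, InU w → s n w ∈ H := by
    intro w hw
    apply Subgroup.subset_closure
    rw [Finset.mem_coe, mem_S]
    exact ⟨w, hw, rfl⟩
  have ht : s n 0 ∈ H := hs 0 zero_InU
  have hm : ∀ w, InU w → lm (m n w) ∈ H := by
    intro w hw
    have h1 := H.mul_mem (hs w hw) (H.inv_mem ht)
    rw [mul_s_inv] at h1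
    have h2 : (⟨(s n w).f + sh ((s n w).k - 1) (m n 0), (s n w).k - 1⟩ : G) = lm (m n w) := by
      ext1
      · rw [map_zero, map_zero, add_zero]; rfl
      · rfl
    rwa [h2] at h1
  have hsig : ∀ l : L, lm (Finsupp.single 0 l) ∈ H := by
    intro l
    have h1 := hm (l.1, 0, 0) (sig_InU _)
    have h2 := hm (0, l.2, 0) (x_InU _ _)
    have h3 := H.mul_mem h1 h2
    rw [← lm_add, ← map_add, m_apply] at h3
    have h4 : (((l.1, 0, 0) : W) + ((0, l.2, 0) : W)) = (l.1, l.2, 0) := by
      ext1
      · simp
      · ext1 <;> simp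
    rw [h4] at h3
    have h5 : ∀ τ : Bool, (Finsupp.single (-(dd n τ : ℤ)) (((0 : A), (Pi.single τ
        ((((l.1, l.2, 0) : W).2.2) τ) : Bool → ZMod 2)) : L) : ℤ →₀ L) = 0 := by
      intro τ
      have : (((0 : A), (Pi.single τ ((((l.1, l.2, 0) : W).2.2) τ) : Bool → ZMod 2)) : L) = 0 := by
        ext1
        · rfl
        · simp
      rw [this, Finsupp.single_zero]
    simp_rw [h5] at h3
    rw [Finset.sum_const_zero, add_zero] at h3
    exact h3
  have hsing : ∀ (i : ℤ) (l : L), lm (Finsupp.single i l) ∈ H := by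
    intro i l
    have h1 := H.mul_mem (H.mul_mem (H.zpow_mem ht i) (hsig l)) (H.zpow_mem ht (-i))
    rw [s_zero_zpow, s_zero_zpow] at h1
    have h2 : (⟨0, i⟩ * lm (Finsupp.single 0 l) * ⟨0, -i⟩ : G) = lm (Finsupp.single i l) := by
      ext1
      · rw [mul_f, mul_f]
        simp only [lm, map_zero, add_zero, zero_add]
        rw [sh_single, zero_add]
      · rw [mul_k, mul_k]
        simp only [lm]
        ring
    rwa [h2] at h1
  have hlm : ∀ f : ℤ →₀ L, lm f ∈ H := by
    intro f
    induction f using Finsupp.induction_linear with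
    | zero => exact H.one_mem
    | add f g hf hg => rw [lm_add]; exact H.mul_mem hf hg
    | single i l => exact hsing i l
  rw [eq_top_iff]
  intro g _
  have h1 := H.mul_mem (hlm g.f) (H.zpow_mem ht g.k)
  rw [s_zero_zpow] at h1
  have h2 : (lm g.f * ⟨0, g.k⟩ : G) = g := by
    ext1
    · rw [mul_f]; simp [lm]
    · rw [mul_k]; simp [lm]
  rwa [h2] at h1

lemma card_U : U.card = 96 := by
  unfold U
  decide +kernel

lemma dd_pos (n : ℕ) (hn : 1 ≤ n) (τ : Bool) : 1 ≤ dd n τ := by
  cases τ <;> simp [dd]; exact hn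

lemma s_inj (n : ℕ) (hn : 1 ≤ n) : Function.Injective (s n) := by
  intro w w' h
  have h1 : m n w = m n w' := congrArg G.f h
  have h2 : Phi n (Finsupp.single 0 w) = Phi n (Finsupp.single 0 w') := by
    rw [Phi_single, Phi_single, h1]
  have hz : ∀ (u : W) (τ : Bool), (Finsupp.single 0 u : ℤ →₀ W) (0 + dd n τ) = 0 := by
    intro u τ
    have := dd_pos n hn τ
    rw [Finsupp.single_apply, if_neg (by omega)]
  have hz' : ∀ (u : W) (τ : Bool), (Finsupp.single 0 u : ℤ →₀ W) (-(dd n τ : ℤ)) = 0 := by
    intro u τ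
    have := dd_pos n hn τ
    rw [Finsupp.single_apply, if_neg (by omega)]
  have h3 : ((w.1, w.2.1) : L) = (w'.1, w'.2.1) := by
    have h4 := DFunLike.congr_fun h2 0
    rw [Phi_apply, Phi_apply] at h4
    simp_rw [hz] at h4
    simpa using h4
  have h5 : ∀ τ, w.2.2 τ = w'.2.2 τ := by
    intro τ
    have h6 := DFunLike.congr_fun h2 (-(dd n τ : ℤ))
    rw [Phi_apply, Phi_apply, hz', hz'] at h6
    have h7 := congrFun (congrArg Prod.snd h6) τ
    simpa using h7
  rw [Prod.mk.injEq] at h3
  ext1
  · exact h3.1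
  · ext1
    · exact h3.2
    · funext τ; exact h5 τ

lemma card_S (n : ℕ) (hn : 1 ≤ n) : (S n).card = 96 := by
  classical
  unfold S
  rw [Finset.card_image_of_injective _ (s_inj n hn), card_U]

lemma comm_k (a b : G) : (⁅a, b⁆ : G).k = 0 := by
  rw [commutatorElement_def, mul_k, mul_k, mul_k, inv_k, inv_k]; ring

lemma commute_of_k (a b : G) (ha : a.k = 0) (hb : b.k = 0) : Commute a b := by
  unfold Commute SemiconjBy
  ext1
  · rw [mul_f, mul_f, ha, hb, sh_zero, sh_zero, add_comm]
  · rw [mul_k, mul_k, add_comm]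

lemma metabelian (a b c d : G) : Commute ⁅a, b⁆ ⁅c, d⁆ :=
  commute_of_k _ _ (comm_k _ _) (comm_k _ _)

/-! ### linearity -/

/-- the field with 32 elements -/
abbrev F : Type := GaloisField 2 5

lemma exists_e : Nonempty (L ≃+ F) := by
  have h1 : Module.finrank (ZMod 2) L = 5 := by
    rw [Module.finrank_prod, Module.finrank_fintype_fun_eq_card,
      Module.finrank_fintype_fun_eq_card]
    rfl
  have h2 : Module.finrank (ZMod 2) F = 5 := GaloisField.finrank 2 (by norm_num)
  exact ⟨(LinearEquiv.ofFinrankEq L F (h1.trans h2.symm)).toAddEquiv⟩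

/-- an additive identification of the lamps with the field -/
noncomputable def ee : L ≃+ F := exists_e.some

/-- the Laurent polynomial of a configuration -/
noncomputable def psi : (ℤ →₀ L) →+ LaurentPolynomial F :=
  (AddMonoidAlgebra.coeffAddEquiv (R := F) (M := ℤ)).symm.toAddMonoidHom.comp
    (Finsupp.mapRange.addMonoidHom ee.toAddMonoidHom)

lemma psi_inj : Function.Injective psi := by
  unfold psi
  apply Function.Injective.comp
    (AddMonoidAlgebra.coeffAddEquiv (R := F) (M := ℤ)).symm.injective
  intro f g h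
  ext1 i
  have := DFunLike.congr_fun h i
  simpa using this

lemma psi_single (i : ℤ) (l : L) : psi (Finsupp.single i l) = AddMonoidAlgebra.single i (ee l) := by
  unfold psi
  simp only [AddMonoidHom.comp_apply, Finsupp.mapRange.addMonoidHom_apply,
    Finsupp.mapRange_single]
  rfl

lemma psi_sh (k : ℤ) (f : ℤ →₀ L) : psi (sh k f) = LaurentPolynomial.T k * psi f := by
  induction f using Finsupp.induction_linear with
  | zero => simp
  | add f g hf hg => rw [map_add, map_add, map_add, mul_add, hf, hg]
  | single i l =>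
    rw [sh_single, psi_single, psi_single, LaurentPolynomial.T, AddMonoidAlgebra.single_mul_single,
      one_mul, add_comm]

/-- the ambient field -/
abbrev K : Type := FractionRing (LaurentPolynomial F)

/-- the matrix representation -/
noncomputable def rep : G →* Matrix (Fin 2) (Fin 2) K where
  toFun g := !![algebraMap (LaurentPolynomial F) K (LaurentPolynomial.T g.k),
    algebraMap (LaurentPolynomial F) K (psi g.f); 0, 1]
  map_one' := by
    rw [one_f, one_k, map_zero, map_zero, LaurentPolynomial.T_zero, map_one,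
      Matrix.one_fin_two]
  map_mul' := by
    intro a b
    rw [mul_f, mul_k, map_add, psi_sh, LaurentPolynomial.T_add, Matrix.mul_fin_two]
    simp only [map_add, map_mul, mul_zero, add_zero, mul_one, zero_mul, zero_add]
    rw [add_comm]

lemma rep_inj : Function.Injective rep := by
  intro a b h
  have hinj : Function.Injective (algebraMap (LaurentPolynomial F) K) :=
    IsFractionRing.injective (LaurentPolynomial F) K
  have h1 := congrFun (congrFun h 0) 0
  have h2 := congrFun (congrFun h 0) 1
  simp only [rep, MonoidHom.coe_mk, OneHom.coe_mk, Matrix.of_apply, Matrix.cons_val', Matrix.cons_val_zero,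
    Matrix.cons_val_one, Matrix.cons_val_fin_one] at h1 h2
  ext1
  · exact psi_inj (hinj h2)
  · have h3 := hinj h1
    by_contra hne
    have h4 := congrArg (fun p : LaurentPolynomial F => p.coeff a.k) h3
    simp only [LaurentPolynomial.T_apply] at h4
    rw [if_pos trivial, if_neg (fun h => hne h.symm)] at h4
    exact one_ne_zero h4

lemma linear : ∃ φ : G →* Matrix.GeneralLinearGroup (Fin 2) K, Function.Injective φ := by
  refine ⟨rep.toHomUnits, ?_⟩
  intro a b h
  apply rep_inj
  have := congrArg Units.val h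
  simpa using this

end Pool.Agent.H341.GR
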