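import Pool.Agent.H341.GR.Cov

/-!
The lamplighter group `L wr ℤ`, the generating sets `S n`, and the structure of words.
-/

namespace Pool.Agent.H341.GR

open Finset

/-- shift of a configuration -/
noncomputable def sh (k : ℤ) : (ℤ →₀ L) →+ (ℤ →₀ L) :=
  Finsupp.mapDomain.addMonoidHom (fun i => i + k)

lemma sh_single (k i : ℤ) (l : L) : sh k (Finsupp.single i l) = Finsupp.single (i + k) l := by
  simp [sh]

lemma sh_apply (k : ℤ) (f : ℤ →₀ L) (i : ℤ) : sh k f i = f (i - k) := by
  have h : Function.Injective (fun i : ℤ => i + k) := add_left_injective k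
  have := Finsupp.mapDomain_apply h f (i - k)
  simp only [sub_add_cancel] at this
  exact this

lemma sh_zero (f : ℤ →₀ L) : sh 0 f = f := by
  ext1 i; rw [sh_apply, sub_zero]

lemma sh_sh (k l : ℤ) (f : ℤ →₀ L) : sh k (sh l f) = sh (k + l) f := by
  ext1 i; rw [sh_apply, sh_apply, sh_apply]; congr 1; ring

/-- the lamplighter group `L wr ℤ` -/
@[ext] structure G where
  f : ℤ →₀ L
  k : ℤ

noncomputable instance : Mul G := ⟨fun a b => ⟨a.f + sh a.k b.f, a.k + b.k⟩⟩
noncomputable instance : One G := ⟨⟨0, 0⟩⟩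
noncomputable instance : Inv G := ⟨fun a => ⟨-(sh (-a.k) a.f), -a.k⟩⟩

lemma mul_f (a b : G) : (a * b).f = a.f + sh a.k b.f := rfl
lemma mul_k (a b : G) : (a * b).k = a.k + b.k := rfl
lemma one_f : (1 : G).f = 0 := rfl
lemma one_k : (1 : G).k = 0 := rfl
lemma inv_f (a : G) : a⁻¹.f = -(sh (-a.k) a.f) := rfl
lemma inv_k (a : G) : a⁻¹.k = -a.k := rfl

noncomputable instance : Group G := Group.ofLeftAxioms
  (by
    intro a b c
    ext1
    · simp only [mul_f, mul_k, map_add, sh_sh, add_assoc]
    · simp only [mul_k, add_assoc])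
  (by
    intro a
    ext1
    · rw [mul_f, one_f, one_k, sh_zero, zero_add]
    · rw [mul_k, one_k, zero_add])
  (by
    intro a
    ext1
    · rw [mul_f, inv_f, inv_k, one_f, neg_add_cancel]
    · rw [mul_k, inv_k, one_k, neg_add_cancel])

/-- the instructions -/
abbrev W : Type := A × (Bool → ZMod 2) × (Bool → ZMod 2)

/-- the lamps switched by an instruction -/
noncomputable def m (n : ℕ) : W →+ (ℤ →₀ L) :=
  AddMonoidHom.mk' (fun w => Finsupp.single 0 (w.1, w.2.1) +
    ∑ τ : Bool, Finsupp.single (-(dd n τ : ℤ)) ((0 : A), (Pi.single τ (w.2.2 τ) : Bool → ZMod 2)))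
    (by
      intro w w'
      have h1 : (((w + w').1, (w + w').2.1) : L) = (w.1, w.2.1) + (w'.1, w'.2.1) := rfl
      have h2 : ∀ τ : Bool, ((0 : A), (Pi.single τ ((w + w').2.2 τ) : Bool → ZMod 2)) =
          ((0 : A), (Pi.single τ (w.2.2 τ) : Bool → ZMod 2)) +
          ((0 : A), (Pi.single τ (w'.2.2 τ) : Bool → ZMod 2)) := by
        intro τ
        ext1
        · simp
        · simp only [Prod.snd_add]
          rw [← Pi.single_add]
          rfl
      rw [h1, Finsupp.single_add]
      simp_rw [h2, Finsupp.single_add]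
      rw [Finset.sum_add_distrib]
      abel)

lemma m_apply (n : ℕ) (w : W) : m n w = Finsupp.single 0 (w.1, w.2.1) +
    ∑ τ : Bool, Finsupp.single (-(dd n τ : ℤ)) ((0 : A), (Pi.single τ (w.2.2 τ) : Bool → ZMod 2)) :=
  rfl

/-- the configuration produced by a family of instructions -/
noncomputable def Phi (n : ℕ) : (ℤ →₀ W) →+ (ℤ →₀ L) :=
  Finsupp.liftAddHom (fun i => (sh i).comp (m n))

lemma Phi_single (n : ℕ) (i : ℤ) (w : W) : Phi n (Finsupp.single i w) = sh i (m n w) := by
  unfold Phi
  rw [Finsupp.liftAddHom_apply_single]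
  rfl

lemma Phi_apply (n : ℕ) (v : ℤ →₀ W) (i : ℤ) :
    Phi n v i = ((v i).1, fun τ => (v i).2.1 τ + (v (i + dd n τ)).2.2 τ) := by
  induction v using Finsupp.induction_linear with
  | zero =>
    rw [map_zero]
    ext1
    · rfl
    · funext τ; simp
  | add v v' h h' =>
    rw [map_add, Finsupp.add_apply, h, h']
    ext1
    · rfl
    · funext τ
      simp only [Prod.snd_add, Prod.fst_add, Pi.add_apply, Finsupp.add_apply]
      ring
  | single j w =>
    rw [Phi_single, sh_apply, m_apply, Finsupp.add_apply, Finsupp.finsetSum_apply]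
    have h1 : (Finsupp.single 0 ((w.1, w.2.1) : L) : ℤ →₀ L) (i - j) =
        if i = j then (w.1, w.2.1) else 0 := by
      rw [Finsupp.single_apply]
      congr 1
      rw [eq_iff_iff]
      constructor <;> intro h <;> omega
    have h2 : ∀ τ : Bool, (Finsupp.single (-(dd n τ : ℤ))
        (((0 : A), (Pi.single τ (w.2.2 τ) : Bool → ZMod 2)) : L) : ℤ →₀ L) (i - j) =
        if i + dd n τ = j then ((0 : A), (Pi.single τ (w.2.2 τ) : Bool → ZMod 2)) else 0 := by
      intro τ
      rw [Finsupp.single_apply]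
      congr 1
      rw [eq_iff_iff]
      constructor <;> intro h <;> omega
    rw [h1]
    simp_rw [h2]
    ext1
    · rw [Prod.fst_add, Prod.fst_sum]
      have : ∀ τ : Bool, (if i + (dd n τ : ℤ) = j then
          (((0 : A), (Pi.single τ (w.2.2 τ) : Bool → ZMod 2)) : L) else 0).1 = 0 := by
        intro τ; split_ifs <;> rfl
      simp_rw [this]
      rw [Finset.sum_const_zero, add_zero]
      simp only [Finsupp.single_apply]
      by_cases h : i = j
      · rw [if_pos h, if_pos h.symm]
      · rw [if_neg h, if_neg (fun h' => h h'.symm)]; rfl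
    · rw [Prod.snd_add, Prod.snd_sum]
      funext τ
      rw [Pi.add_apply, Finset.sum_apply]
      have : ∀ τ' : Bool, (if i + (dd n τ' : ℤ) = j then
          (((0 : A), (Pi.single τ' (w.2.2 τ') : Bool → ZMod 2)) : L) else 0).2 τ =
          if τ' = τ then (if i + (dd n τ : ℤ) = j then w.2.2 τ else 0) else 0 := by
        intro τ'
        by_cases h : τ' = τ
        · subst h
          rw [if_pos rfl]
          split_ifs
          · simp
          · rfl
        · rw [if_neg h]
          split_ifs
          · simp only []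
            rw [Pi.single_eq_of_ne (fun h' => h h'.symm)]
          · rfl
      simp_rw [this]
      rw [Finset.sum_ite_eq' univ τ, if_pos (Finset.mem_univ _)]
      simp only [Finsupp.single_apply]
      congr 1
      · by_cases h : i = j
        · rw [if_pos h, if_pos h.symm]
        · rw [if_neg h, if_neg (fun h' => h h'.symm)]; rfl
      · by_cases h : i + (dd n τ : ℤ) = j
        · rw [if_pos h, if_pos h.symm]
        · rw [if_neg h, if_neg (fun h' => h h'.symm)]; rfl

/-- the admissible instructions -/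
def InU (w : W) : Prop := ∀ τ, (w.1 = pp τ → w.2.1 τ = 0) ∧ (w.1 = qq τ → w.2.2 τ = 0)

instance : DecidablePred InU := fun w => by unfold InU; infer_instance

/-- the set of admissible instructions -/
def U : Finset W := univ.filter InU

lemma mem_U (w : W) : w ∈ U ↔ InU w := by simp [U]

/-- the generator of an instruction -/
noncomputable def s (n : ℕ) (w : W) : G := ⟨m n w, 1⟩

open Classical in
/-- the generating set -/
noncomputable def S (n : ℕ) : Finset G := U.image (s n)

lemma mem_S (n : ℕ) (g : G) : g ∈ S n ↔ ∃ w, InU w ∧ s n w = g := by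
  classical
  unfold S
  rw [Finset.mem_image]
  simp only [mem_U]

lemma zero_InU : InU 0 := by
  intro τ; exact ⟨fun _ => rfl, fun _ => rfl⟩

lemma x_InU (x y : Bool → ZMod 2) : InU (0, x, y) := by
  intro τ
  refine ⟨fun h => absurd h.symm (pp_ne_zero τ), fun h => absurd h.symm (qq_ne_zero τ)⟩

lemma sig_InU (σ : A) : InU (σ, 0, 0) := by
  intro τ; exact ⟨fun _ => rfl, fun _ => rfl⟩

lemma mul_s (n : ℕ) (g : G) (w : W) : g * s n w = ⟨g.f + sh g.k (m n w), g.k + 1⟩ := rfl

lemma neg_L (l : L) : -l = l := by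
  have : ∀ l : L, -l = l := by
    intro l
    ext1
    · funext i; exact ZMod.neg_eq_self_mod_two _
    · funext i; exact ZMod.neg_eq_self_mod_two _
  exact this l

lemma neg_f (f : ℤ →₀ L) : -f = f := by
  ext1 i
  rw [Finsupp.neg_apply, neg_L]

lemma mul_s_inv (n : ℕ) (g : G) (w : W) :
    g * (s n w)⁻¹ = ⟨g.f + sh (g.k - 1) (m n w), g.k - 1⟩ := by
  ext1
  · rw [mul_f, inv_f, neg_f]
    simp only [s]
    rw [sh_sh]
    rfl
  · rfl

end Pool.Agent.H341.GR
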