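import Pool.Agent.H341.GR.Word

/-!
Short words for the elements given by a labelling with few bad edges.
-/

namespace Pool.Agent.H341.GR

open Finset

lemma Len_one (n : ℕ) : Len n 0 1 := ⟨[], rfl, by simp, rfl⟩

lemma Len_mul {n r r' : ℕ} {g g' : G} (h : Len n r g) (h' : Len n r' g') :
    Len n (r + r') (g * g') := by
  obtain ⟨l, h1, h2, h3⟩ := h
  obtain ⟨l', h1', h2', h3'⟩ := h'
  refine ⟨l ++ l', ?_, ?_, ?_⟩
  · rw [List.length_append, h1, h1']
  · intro x hx
    rw [List.mem_append] at hx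
    rcases hx with hx | hx
    · exact h2 x hx
    · exact h2' x hx
  · rw [List.prod_append, h3, h3']

lemma Len_s {n : ℕ} {w : W} (hw : InU w) : Len n 1 (s n w) := by
  refine ⟨[s n w], rfl, ?_, by simp⟩
  intro x hx
  rw [List.mem_singleton] at hx
  subst hx
  left
  rw [mem_S]
  exact ⟨w, hw, rfl⟩

lemma Len_s_inv {n : ℕ} {w : W} (hw : InU w) : Len n 1 (s n w)⁻¹ := by
  refine ⟨[(s n w)⁻¹], rfl, ?_, by simp⟩
  intro x hx
  rw [List.mem_singleton] at hx
  subst hx
  right
  rw [mem_S, inv_inv]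
  exact ⟨w, hw, rfl⟩

lemma s_triple (n : ℕ) (w : W) :
    s n w = s n (0, w.2.1, w.2.2) * (s n (w.1, 0, 0))⁻¹ * s n 0 := by
  rw [mul_s_inv, mul_s]
  ext1
  · simp only [s]
    rw [sub_self, sh_zero, sh_zero, map_zero, add_zero, ← map_add]
    congr 1
    ext1
    · simp
    · ext1 <;> simp
  · simp only [s]
    ring

lemma Len_cost (n : ℕ) (w : W) : Len n (1 + 2 * ind (¬ InU w)) (s n w) := by
  by_cases h : InU w
  · rw [ind_neg (by simpa using h)]
    exact Len_s h
  · rw [ind_pos h, s_triple]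
    show Len n (1 + 1 + 1) _
    exact Len_mul (Len_mul (Len_s (x_InU _ _)) (Len_s_inv (sig_InU _))) (Len_s zero_InU)

lemma Len_prod (n : ℕ) (v : ℕ → W) (K : ℕ) :
    Len n (∑ i ∈ Finset.range K, (1 + 2 * ind (¬ InU (v i))))
      ⟨Phi n (∑ i ∈ Finset.range K, Finsupp.single (i : ℤ) (v i)), K⟩ := by
  induction K with
  | zero =>
    simp only [Finset.range_zero, Finset.sum_empty, map_zero]
    exact Len_one n
  | succ K ih =>
    rw [Finset.sum_range_succ, Finset.sum_range_succ, map_add, Phi_single]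
    have := Len_mul ih (Len_cost n (v K))
    rw [mul_s] at this
    exact_mod_cast this

section lower

variable (n k : ℕ) (g : Fin k → L)

/-- extension by zero -/
def ext0 (i : ℤ) : L := if h : 0 ≤ i ∧ i < k then g ⟨i.toNat, by omega⟩ else 0

lemma ext0_coe (j : Fin k) : ext0 k g ((j : ℕ) : ℤ) = g j := by
  unfold ext0
  have := j.isLt
  rw [dif_pos (by omega)]
  congr 1

lemma ext0_out (i : ℤ) (h : ¬ (0 ≤ i ∧ i < k)) : ext0 k g i = 0 := by
  unfold ext0
  rw [dif_neg h]

/-- the instructions used -/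
def ins (i : ℤ) : W := ((ext0 k g i).1,
  fun τ => if (ext0 k g i).1 = pp τ then 0 else (ext0 k g i).2 τ,
  fun τ => if (ext0 k g (i - dd n τ)).1 = pp τ then (ext0 k g (i - dd n τ)).2 τ else 0)

lemma dd_le (hn : 1 ≤ n) (τ : Bool) : dd n τ ≤ n := by
  cases τ <;> simp [dd]; exact hn

lemma ins_out (hn : 1 ≤ n) (i : ℤ) (h : i < 0 ∨ (k + n : ℤ) ≤ i) : ins n k g i = 0 := by
  unfold ins
  have h1 : ext0 k g i = 0 := ext0_out k g i (by omega)
  have h2 : ∀ τ, ext0 k g (i - dd n τ) = 0 := by
    intro τ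
    apply ext0_out
    have := dd_le n hn τ
    omega
  rw [h1]
  simp_rw [h2]
  ext1
  · rfl
  · ext1
    · funext τ; simp
    · funext τ; simp

lemma ins_sum (hn : 1 ≤ n) (i : ℤ) :
    (∑ j ∈ Finset.range (k + n), Finsupp.single (j : ℤ) (ins n k g j) : ℤ →₀ W) i
      = ins n k g i := by
  rw [Finsupp.finsetSum_apply]
  by_cases h : 0 ≤ i ∧ i < k + n
  · rw [Finset.sum_eq_single i.toNat]
    · rw [Finsupp.single_apply, if_pos (by omega)]
      congr 1
      omega
    · intro j _ hj
      rw [Finsupp.single_apply, if_neg]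
      omega
    · intro h'
      rw [Finset.mem_range] at h'
      omega
  · rw [ins_out n k g hn i (by omega)]
    apply Finset.sum_eq_zero
    intro j hj
    rw [Finset.mem_range] at hj
    rw [Finsupp.single_apply, if_neg]
    omega

/-- the group element -/
noncomputable def elt : G :=
  ⟨Phi n (∑ j ∈ Finset.range (k + n), Finsupp.single (j : ℤ) (ins n k g j)), ((k + n : ℕ) : ℤ)⟩

lemma elt_f (hn : 1 ≤ n) (i : ℤ) : (elt n k g).f i = ext0 k g i := by
  unfold elt
  simp only []
  rw [Phi_apply, ins_sum n k g hn]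
  simp_rw [ins_sum n k g hn]
  ext1
  · rfl
  · funext τ
    simp only [ins, add_sub_cancel_right]
    split_ifs <;> simp

lemma elt_inj (hn : 1 ≤ n) : Function.Injective (elt n k) := by
  intro g g' h
  funext j
  rw [← ext0_coe k g j, ← ext0_coe k g' j, ← elt_f n k g hn, ← elt_f n k g' hn, h]

lemma zmod_two_one (x : ZMod 2) (h : x ≠ 0) : x = 1 := by
  revert x; decide

lemma ins_cost :
    ∑ i ∈ Finset.range (k + n), ind (¬ InU (ins n k g i)) ≤ (base n k).bad g univ := by
  have h1 : ∀ i : ℕ, k ≤ i → ind (¬ InU (ins n k g i)) = 0 := by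
    intro i hi
    apply ind_neg
    rw [not_not]
    intro τ
    have : ext0 k g (i : ℤ) = 0 := ext0_out k g _ (by omega)
    unfold ins
    simp only []
    rw [this]
    refine ⟨fun h => absurd h.symm (pp_ne_zero τ), fun h => absurd h.symm (qq_ne_zero τ)⟩
  have h2 : ∑ i ∈ Finset.range (k + n), ind (¬ InU (ins n k g i)) =
      ∑ j : Fin k, ind (¬ InU (ins n k g ((j : ℕ) : ℤ))) := by
    rw [Finset.sum_range_add]
    rw [Finset.sum_eq_zero (s := Finset.range n)]
    · rw [add_zero, Finset.sum_range]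
    · intro x _
      have := h1 (k + x) (by omega)
      exact_mod_cast this
  rw [h2]
  unfold Sys.bad
  rw [Finset.sum_comm]
  apply Finset.sum_le_sum
  intro j _
  by_cases hc : InU (ins n k g ((j : ℕ) : ℤ))
  · rw [ind_neg (by simpa using hc)]; exact Nat.zero_le _
  · rw [ind_pos hc]
    unfold InU at hc
    push Not at hc
    obtain ⟨τ, hτ⟩ := hc
    have h3 : (ins n k g ((j : ℕ) : ℤ)).1 = pp τ → (ins n k g ((j : ℕ) : ℤ)).2.1 τ = 0 := by
      intro h
      simp only [ins] at h ⊢
      rw [if_pos h]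
    obtain ⟨h4, h5⟩ := hτ h3
    simp only [ins] at h4 h5
    rw [ext0_coe] at h4
    by_cases h6 : (ext0 k g (((j : ℕ) : ℤ) - dd n τ)).1 = pp τ
    · rw [if_pos h6] at h5
      have h7 : 0 ≤ ((j : ℕ) : ℤ) - dd n τ ∧ ((j : ℕ) : ℤ) - dd n τ < k := by
        by_contra hcon
        rw [ext0_out k g _ hcon] at h5
        exact h5 rfl
      set i : Fin k := ⟨(j : ℕ) - dd n τ, by omega⟩ with hi
      have h8 : ((i : ℕ) : ℤ) = ((j : ℕ) : ℤ) - dd n τ := by
        rw [hi]; simp only []; omega
      rw [← h8, ext0_coe] at h5 h6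
      have h9 : (base n k).Bad g τ i j := by
        refine ⟨?_, ?_, ?_⟩
        · show (j : ℕ) = i + dd n τ
          omega
        · rw [role_true]
          exact ⟨h6, zmod_two_one _ h5⟩
        · rw [role_false]
          exact h4
      calc 1 = ind ((base n k).Bad g τ i j) := (ind_pos h9).symm
        _ ≤ (base n k).b g i j := Finset.single_le_sum
              (f := fun τ => ind ((base n k).Bad g τ i j)) (fun _ _ => Nat.zero_le _)
              (Finset.mem_univ _)
        _ ≤ _ := Finset.single_le_sum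
              (f := fun i => (base n k).b g i j) (fun _ _ => Nat.zero_le _)
              (Finset.mem_univ _)
    · rw [if_neg h6] at h5
      exact absurd rfl h5

lemma elt_len :
    ∃ r, r ≤ k + n + 2 * (base n k).bad g univ ∧ Len n r (elt n k g) := by
  refine ⟨_, ?_, Len_prod n (fun i => ins n k g (i : ℤ)) (k + n)⟩
  rw [Finset.sum_add_distrib, ← Finset.mul_sum]
  have := ins_cost n k g
  simp only [Finset.sum_const, Finset.card_range, smul_eq_mul, mul_one]
  omega

end lower

end Pool.Agent.H341.GR
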