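import Mathlib

/-!
Abstract recursion systems: functions `P` on finite subsets obeying
`P (V ∪ v) = P V - κ ∑_{u ∈ V} adj v u * P (V \ u)` (matching polynomials at a small weight),
the comparison lemma for coverings and the gap lemma along a path.
-/

namespace Pool.Agent.H341.GR

open Finset

structure RecSys (κ : ℝ) (X : Type*) [Fintype X] [DecidableEq X] where
  adj : X → X → ℕ
  P : Finset X → ℝ
  empty : P ∅ = 1
  deg : ∀ v, ∑ u, adj v u ≤ 4
  step : ∀ V v, v ∉ V → P (insert v V) = P V - κ * ∑ u ∈ V, (adj v u : ℝ) * P (V.erase u)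

namespace RecSys

variable {κ : ℝ} {X : Type*} [Fintype X] [DecidableEq X] (R : RecSys κ X)

lemma degR (v : X) (V : Finset X) : ∑ u ∈ V, (R.adj v u : ℝ) ≤ 4 := by
  have h1 : ∑ u ∈ V, R.adj v u ≤ 4 :=
    (Finset.sum_le_sum_of_subset (Finset.subset_univ V)).trans (R.deg v)
  exact_mod_cast h1

/-- one step, assuming the bound for the smaller set -/
lemma step_ge (h0 : 0 ≤ κ) (h1 : κ ≤ 1 / 16) (V : Finset X) (v : X) (hv : v ∉ V)
    (hp : 0 < R.P V) (hu : ∀ u ∈ V, R.P (V.erase u) ≤ 2 * R.P V) :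
    R.P V ≤ 2 * R.P (insert v V) := by
  rw [R.step V v hv]
  have h2 : ∑ u ∈ V, (R.adj v u : ℝ) * R.P (V.erase u) ≤ 8 * R.P V := by
    calc ∑ u ∈ V, (R.adj v u : ℝ) * R.P (V.erase u)
        ≤ ∑ u ∈ V, (R.adj v u : ℝ) * (2 * R.P V) := by
          apply Finset.sum_le_sum
          intro u hu'
          exact mul_le_mul_of_nonneg_left (hu u hu') (Nat.cast_nonneg _)
      _ = (∑ u ∈ V, (R.adj v u : ℝ)) * (2 * R.P V) := by rw [Finset.sum_mul]
      _ ≤ 4 * (2 * R.P V) := by
          apply mul_le_mul_of_nonneg_right (R.degR v V)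
          linarith
      _ = 8 * R.P V := by ring
  have h3 : κ * ∑ u ∈ V, (R.adj v u : ℝ) * R.P (V.erase u) ≤ (1/16) * (8 * R.P V) := by
    calc κ * ∑ u ∈ V, (R.adj v u : ℝ) * R.P (V.erase u) ≤ κ * (8 * R.P V) :=
          mul_le_mul_of_nonneg_left h2 h0
      _ ≤ (1/16) * (8 * R.P V) := by
          apply mul_le_mul_of_nonneg_right h1
          linarith
  linarith

lemma main2 (h0 : 0 ≤ κ) (h1 : κ ≤ 1 / 16) : ∀ (n : ℕ) (V : Finset X), V.card = n →
    0 < R.P V ∧ ∀ u ∈ V, R.P (V.erase u) ≤ 2 * R.P V := by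
  intro n
  induction n with
  | zero =>
    intro V hV
    rw [Finset.card_eq_zero] at hV
    subst hV
    refine ⟨?_, ?_⟩
    · rw [R.empty]; norm_num
    · intro u hu
      simp at hu
  | succ n ih =>
    intro V hV
    have key : ∀ u ∈ V, 0 < R.P (V.erase u) ∧ R.P (V.erase u) ≤ 2 * R.P V := by
      intro u hu
      have hc : (V.erase u).card = n := by
        rw [Finset.card_erase_of_mem hu, hV]; rfl
      obtain ⟨hp, hq⟩ := ih _ hc
      have h2 := R.step_ge h0 h1 (V.erase u) u (Finset.notMem_erase u V) hp hq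
      rw [Finset.insert_erase hu] at h2
      exact ⟨hp, h2⟩
    have hne : V.Nonempty := by
      rw [← Finset.card_pos, hV]; omega
    obtain ⟨u, hu⟩ := hne
    refine ⟨?_, fun u hu => (key u hu).2⟩
    have := key u hu
    linarith

lemma pos (h0 : 0 ≤ κ) (h1 : κ ≤ 1 / 16) (V : Finset X) : 0 < R.P V :=
  (R.main2 h0 h1 _ V rfl).1

lemma le_two (h0 : 0 ≤ κ) (h1 : κ ≤ 1 / 16) (V : Finset X) (v : X) (hv : v ∉ V) :
    R.P V ≤ 2 * R.P (insert v V) :=
  R.step_ge h0 h1 V v hv (R.pos h0 h1 V) (R.main2 h0 h1 _ V rfl).2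

lemma insert_le (h0 : 0 ≤ κ) (h1 : κ ≤ 1 / 16) (V : Finset X) (v : X) (hv : v ∉ V) :
    R.P (insert v V) ≤ R.P V := by
  rw [R.step V v hv]
  have : 0 ≤ κ * ∑ u ∈ V, (R.adj v u : ℝ) * R.P (V.erase u) := by
    apply mul_nonneg h0
    apply Finset.sum_nonneg
    intro u _
    exact mul_nonneg (Nat.cast_nonneg _) (R.pos h0 h1 _).le
  linarith

/-- the ratio -/
noncomputable def r (v : X) (V : Finset X) : ℝ := R.P (insert v V) / R.P V

lemma r_pos (h0 : 0 ≤ κ) (h1 : κ ≤ 1 / 16) (v : X) (V : Finset X) : 0 < R.r v V :=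
  div_pos (R.pos h0 h1 _) (R.pos h0 h1 _)

lemma r_le_one (h0 : 0 ≤ κ) (h1 : κ ≤ 1 / 16) (v : X) (V : Finset X) (hv : v ∉ V) :
    R.r v V ≤ 1 := by
  unfold r
  rw [div_le_one (R.pos h0 h1 _)]
  exact R.insert_le h0 h1 V v hv

lemma r_eq (h0 : 0 ≤ κ) (h1 : κ ≤ 1 / 16) (v : X) (V : Finset X) (hv : v ∉ V) :
    R.r v V = 1 - κ * ∑ u ∈ V, (R.adj v u : ℝ) * (R.r u (V.erase u))⁻¹ := by
  unfold r
  rw [R.step V v hv, sub_div, div_self (R.pos h0 h1 _).ne', mul_div_assoc, Finset.sum_div]
  congr 2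
  apply Finset.sum_congr rfl
  intro u hu
  rw [Finset.insert_erase hu, inv_div, mul_div_assoc]

/-- **Covering lemma.** -/
lemma cover (h0 : 0 ≤ κ) (h1 : κ ≤ 1 / 16) {Y : Type*} [Fintype Y] [DecidableEq Y]
    (Q : RecSys κ Y) (π : Y → X) :
    ∀ (n : ℕ) (V : Finset X), V.card = n →
      (∀ y, ∀ u ∈ V, R.adj (π y) u ≤ ∑ y' ∈ univ.filter (fun y' => π y' = u), Q.adj y y') →
      ∀ (W : Finset Y), (∀ y, π y ∈ V → y ∈ W) → ∀ y, y ∉ W → π y ∉ V →
        Q.r y W ≤ R.r (π y) V := by
  intro n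
  induction n with
  | zero =>
    intro V hV hadj W hW y hy hπ
    rw [Finset.card_eq_zero] at hV
    subst hV
    rw [R.r_eq h0 h1 _ _ hπ]
    simp
    exact Q.r_le_one h0 h1 _ _ hy
  | succ n ih =>
    intro V hV hadj W hW y hy hπ
    rw [R.r_eq h0 h1 _ _ hπ, Q.r_eq h0 h1 _ _ hy]
    have h2 : ∑ u ∈ V, (R.adj (π y) u : ℝ) * (R.r u (V.erase u))⁻¹
        ≤ ∑ y' ∈ W, (Q.adj y y' : ℝ) * (Q.r y' (W.erase y'))⁻¹ := by
      calc ∑ u ∈ V, (R.adj (π y) u : ℝ) * (R.r u (V.erase u))⁻¹
          ≤ ∑ u ∈ V, ∑ y' ∈ univ.filter (fun y' => π y' = u),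
              (Q.adj y y' : ℝ) * (Q.r y' (W.erase y'))⁻¹ := by
            apply Finset.sum_le_sum
            intro u hu
            calc (R.adj (π y) u : ℝ) * (R.r u (V.erase u))⁻¹
                ≤ (∑ y' ∈ univ.filter (fun y' => π y' = u), (Q.adj y y' : ℝ)) *
                    (R.r u (V.erase u))⁻¹ := by
                  apply mul_le_mul_of_nonneg_right
                  · exact_mod_cast hadj y u hu
                  · exact (inv_pos.mpr (R.r_pos h0 h1 _ _)).le
              _ = ∑ y' ∈ univ.filter (fun y' => π y' = u), (Q.adj y y' : ℝ) *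
                    (R.r u (V.erase u))⁻¹ := by rw [Finset.sum_mul]
              _ ≤ _ := by
                  apply Finset.sum_le_sum
                  intro y' hy'
                  simp only [Finset.mem_filter, Finset.mem_univ, true_and] at hy'
                  apply mul_le_mul_of_nonneg_left _ (Nat.cast_nonneg _)
                  apply inv_anti₀ (Q.r_pos h0 h1 _ _)
                  have hc : (V.erase u).card = n := by
                    rw [Finset.card_erase_of_mem hu, hV]; rfl
                  have := ih (V.erase u) hc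
                    (fun y u' hu' => hadj y u' (Finset.mem_of_mem_erase hu'))
                    (W.erase y') (by
                      intro y'' hy''
                      rw [Finset.mem_erase] at hy'' ⊢
                      refine ⟨?_, hW _ hy''.2⟩
                      rintro rfl
                      exact hy''.1 hy') y' (Finset.notMem_erase _ _)
                      (by rw [hy']; exact Finset.notMem_erase _ _)
                  rwa [hy'] at this
        _ = ∑ y' ∈ univ.filter (fun y' => π y' ∈ V),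
              (Q.adj y y' : ℝ) * (Q.r y' (W.erase y'))⁻¹ := by
            rw [← Finset.sum_biUnion]
            · apply Finset.sum_congr _ (fun _ _ => rfl)
              ext y'
              simp
            · intro u _ u' _ huu'
              simp only [Function.onFun]
              rw [Finset.disjoint_left]
              intro a ha hb
              simp only [Finset.mem_filter, Finset.mem_univ, true_and] at ha hb
              exact huu' (ha.symm.trans hb)
        _ ≤ _ := by
            apply Finset.sum_le_sum_of_subset_of_nonneg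
            · intro y' hy'
              simp only [Finset.mem_filter, Finset.mem_univ, true_and] at hy'
              exact hW y' hy'
            · intro y' _ _
              exact mul_nonneg (Nat.cast_nonneg _) (inv_pos.mpr (Q.r_pos h0 h1 _ _)).le
    have h3 := mul_le_mul_of_nonneg_left h2 h0
    linarith

lemma cover' (h0 : 0 ≤ κ) (h1 : κ ≤ 1 / 16) {Y : Type*} [Fintype Y] [DecidableEq Y]
    (Q : RecSys κ Y) (π : Y → X) (V : Finset X)
    (hadj : ∀ y, ∀ u ∈ V, R.adj (π y) u ≤ ∑ y' ∈ univ.filter (fun y' => π y' = u), Q.adj y y')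
    (W : Finset Y) (hW : ∀ y, π y ∈ V → y ∈ W) (y : Y) (hy : y ∉ W) (hπ : π y ∉ V) :
    Q.r y W ≤ R.r (π y) V :=
  R.cover h0 h1 Q π _ V rfl hadj W hW y hy hπ

/-- monotonicity of the ratio in the set -/
lemma r_anti (h0 : 0 ≤ κ) (h1 : κ ≤ 1 / 16) (v : X) (V W : Finset X) (hVW : V ⊆ W)
    (hv : v ∉ W) : R.r v W ≤ R.r v V := by
  apply R.cover' h0 h1 R id V _ W (fun y hy => hVW hy) v hv (fun h => hv (hVW h))
  intro y u _
  simp only [id]
  rw [Finset.filter_eq' univ u]
  simp

/-- **Gap lemma.** A path from `x` to `z` through `W` gives a definite decrease. -/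
lemma gap (h0 : 0 ≤ κ) (h1 : κ ≤ 1 / 16) (z : X) : ∀ (p : List X) (x : X) (W : Finset X),
    z ∉ W → x ≠ z → x ∉ W → p.Nodup → (∀ a ∈ p, a ∈ W) →
    List.IsChain (fun a b => 1 ≤ R.adj a b) (x :: (p ++ [z])) →
    κ ^ (p.length + 1) ≤ R.r x W - R.r x (insert z W) := by
  intro p
  induction p with
  | nil =>
    intro x W hz hxz hx _ _ hch
    simp only [List.nil_append, List.isChain_cons_cons, List.IsChain.singleton, and_true] at hch
    have hx' : x ∉ insert z W := by
      rw [Finset.mem_insert]; push Not; exact ⟨hxz, hx⟩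
    rw [R.r_eq h0 h1 _ _ hx, R.r_eq h0 h1 _ _ hx', Finset.sum_insert hz, Finset.erase_insert hz]
    have h2 : ∑ u ∈ W, (R.adj x u : ℝ) * (R.r u (W.erase u))⁻¹ ≤
        ∑ u ∈ W, (R.adj x u : ℝ) * (R.r u ((insert z W).erase u))⁻¹ := by
      apply Finset.sum_le_sum
      intro u hu
      apply mul_le_mul_of_nonneg_left _ (Nat.cast_nonneg _)
      apply inv_anti₀ (R.r_pos h0 h1 _ _)
      apply R.r_anti h0 h1 u _ _ _ (Finset.notMem_erase _ _)
      exact Finset.erase_subset_erase _ (Finset.subset_insert _ _)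
    have h3 : 1 ≤ (R.adj x z : ℝ) * (R.r z W)⁻¹ := by
      have h4 : (1:ℝ) ≤ (R.adj x z : ℝ) := by exact_mod_cast hch
      have h5 : 1 ≤ (R.r z W)⁻¹ := one_le_inv₀ (R.r_pos h0 h1 _ _) |>.mpr (R.r_le_one h0 h1 _ _ hz)
      nlinarith
    simp only [List.length_nil, zero_add, pow_one]
    nlinarith [mul_le_mul_of_nonneg_left h2 h0, mul_le_mul_of_nonneg_left h3 h0]
  | cons a p ih =>
    intro x W hz hxz hx hnd hpW hch
    rw [List.cons_append, List.isChain_cons_cons] at hch
    obtain ⟨hxa, hch⟩ := hch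
    have haW : a ∈ W := hpW a (by simp)
    have haz : a ≠ z := fun h => hz (h ▸ haW)
    rw [List.nodup_cons] at hnd
    have ih' := ih a (W.erase a) (fun h => hz (Finset.mem_of_mem_erase h)) haz
      (Finset.notMem_erase _ _) hnd.2 (by
        intro b hb
        rw [Finset.mem_erase]
        refine ⟨?_, hpW b (by simp [hb])⟩
        rintro rfl
        exact hnd.1 hb) hch
    have hx' : x ∉ insert z W := by
      rw [Finset.mem_insert]; push Not; exact ⟨hxz, hx⟩
    rw [R.r_eq h0 h1 _ _ hx, R.r_eq h0 h1 _ _ hx', Finset.sum_insert hz, Finset.erase_insert hz]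
    have h2 : ∑ u ∈ W.erase a, (R.adj x u : ℝ) * (R.r u (W.erase u))⁻¹ ≤
        ∑ u ∈ W.erase a, (R.adj x u : ℝ) * (R.r u ((insert z W).erase u))⁻¹ := by
      apply Finset.sum_le_sum
      intro u hu
      apply mul_le_mul_of_nonneg_left _ (Nat.cast_nonneg _)
      apply inv_anti₀ (R.r_pos h0 h1 _ _)
      apply R.r_anti h0 h1 u _ _ _ (Finset.notMem_erase _ _)
      exact Finset.erase_subset_erase _ (Finset.subset_insert _ _)
    have h3 : (0:ℝ) ≤ (R.adj x z : ℝ) * (R.r z W)⁻¹ :=
      mul_nonneg (Nat.cast_nonneg _) (inv_pos.mpr (R.r_pos h0 h1 _ _)).le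
    have h4 : κ ^ (p.length + 1) ≤ (R.adj x a : ℝ) * (R.r a ((insert z W).erase a))⁻¹ -
        (R.adj x a : ℝ) * (R.r a (W.erase a))⁻¹ := by
      rw [← mul_sub]
      have h5 : (1:ℝ) ≤ (R.adj x a : ℝ) := by exact_mod_cast hxa
      have h6 : κ ^ (p.length + 1) ≤
          (R.r a ((insert z W).erase a))⁻¹ - (R.r a (W.erase a))⁻¹ := by
        have e1 : (insert z W).erase a = insert z (W.erase a) := by
          rw [Finset.erase_insert_of_ne haz.symm]
        rw [e1]
        have hp1 := R.r_pos h0 h1 a (W.erase a)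
        have hp2 := R.r_pos h0 h1 a (insert z (W.erase a))
        have hq1 := R.r_le_one h0 h1 a (W.erase a) (Finset.notMem_erase _ _)
        have hq2 := R.r_le_one h0 h1 a (insert z (W.erase a)) (by
          rw [Finset.mem_insert]; push Not; exact ⟨haz, Finset.notMem_erase _ _⟩)
        set s := R.r a (W.erase a) with hs
        set s' := R.r a (insert z (W.erase a)) with hs'
        have hss : s'⁻¹ - s⁻¹ = (s - s') / (s * s') := by
          field_simp
        rw [hss, le_div_iff₀ (mul_pos hp1 hp2)]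
        have hk : 0 ≤ κ ^ (p.length + 1) := pow_nonneg h0 _
        have h7 : s * s' ≤ 1 := by nlinarith
        nlinarith
      have hk : 0 ≤ κ ^ (p.length + 1) := pow_nonneg h0 _
      nlinarith
    rw [← Finset.add_sum_erase W _ haW]
    rw [← Finset.add_sum_erase W (fun u => (R.adj x u : ℝ) * (R.r u ((insert z W).erase u))⁻¹) haW]
    have h8 := mul_le_mul_of_nonneg_left h2 h0
    have h9 := mul_le_mul_of_nonneg_left h3 h0
    have h10 := mul_le_mul_of_nonneg_left h4 h0
    simp only [List.length_cons]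
    have e2 : κ ^ (p.length + 1 + 1) = κ * κ ^ (p.length + 1) := by ring
    rw [e2]
    nlinarith

end RecSys

end Pool.Agent.H341.GR
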