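import Pool.Agent.H341.GR.Rec

/-!
Labels, roles, the number of bad edges of a labelling, and its expectation as a recursion system.
-/

namespace Pool.Agent.H341.GR

open Finset

/-- symbols -/
abbrev A : Type := Fin 3 → ZMod 2

/-- labels -/
abbrev L : Type := A × (Bool → ZMod 2)

/-- the source symbols -/
def pp (τ : Bool) : A := ![1, 0, if τ then 1 else 0]

/-- the target symbols -/
def qq (τ : Bool) : A := ![0, 1, if τ then 1 else 0]

/-- the role of a label -/
def role (l : L) : Option (Bool × Bool) :=
  if l.1 = pp false ∧ l.2 false = 1 then some (true, false)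
  else if l.1 = pp true ∧ l.2 true = 1 then some (true, true)
  else if l.1 = qq false then some (false, false)
  else if l.1 = qq true then some (false, true)
  else none

lemma pp_ne_qq : ∀ τ τ' : Bool, pp τ ≠ qq τ' := by decide

lemma pp_inj : ∀ τ τ' : Bool, pp τ = pp τ' → τ = τ' := by decide

lemma qq_inj : ∀ τ τ' : Bool, qq τ = qq τ' → τ = τ' := by decide

lemma pp_ne_zero : ∀ τ : Bool, pp τ ≠ 0 := by decide

lemma qq_ne_zero : ∀ τ : Bool, qq τ ≠ 0 := by decide

lemma role_true (l : L) (τ : Bool) : role l = some (true, τ) ↔ l.1 = pp τ ∧ l.2 τ = 1 := by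
  unfold role
  have h1 := pp_inj false true
  have h2 := pp_ne_qq false false
  have h3 := pp_ne_qq false true
  have h4 := pp_ne_qq true false
  have h5 := pp_ne_qq true true
  have h6 := qq_inj false true
  split_ifs with g1 g2 g3 g4 <;> cases τ <;> simp_all

lemma role_false (l : L) (τ : Bool) : role l = some (false, τ) ↔ l.1 = qq τ := by
  unfold role
  have h1 := pp_inj false true
  have h2 := pp_ne_qq false false
  have h3 := pp_ne_qq false true
  have h4 := pp_ne_qq true false
  have h5 := pp_ne_qq true true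
  have h6 := qq_inj false true
  have h7 := qq_inj true false
  have h8 : ¬ (qq false = qq true) := by decide
  split_ifs with g1 g2 g3 g4 <;> cases τ <;> simp_all

lemma card_L : Fintype.card L = 32 := by decide

lemma card_role_true (τ : Bool) :
    (univ.filter (fun l : L => role l = some (true, τ))).card = 2 := by
  revert τ; decide +kernel

lemma card_role_false (τ : Bool) :
    (univ.filter (fun l : L => role l = some (false, τ))).card = 4 := by
  revert τ; decide +kernel

/-- indicator -/
noncomputable def ind (p : Prop) : ℕ := by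
  classical exact if p then 1 else 0

lemma ind_pos {p : Prop} (h : p) : ind p = 1 := by
  unfold ind; rw [if_pos h]

lemma ind_neg {p : Prop} (h : ¬ p) : ind p = 0 := by
  unfold ind; rw [if_neg h]

lemma ind_and (p q : Prop) : ind (p ∧ q) = ind p * ind q := by
  by_cases hp : p <;> by_cases hq : q <;> simp [ind, hp, hq]

lemma ind_le_one (p : Prop) : ind p ≤ 1 := by
  unfold ind; split_ifs <;> simp

lemma ind_congr {p q : Prop} (h : p ↔ q) : ind p = ind q := by
  rw [propext h]

/-- a system of partial injections -/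
structure Sys (X : Type*) where
  E : Bool → X → X → Prop
  func : ∀ {τ x y y'}, E τ x y → E τ x y' → y = y'
  inj : ∀ {τ x x' y}, E τ x y → E τ x' y → x = x'

namespace Sys

variable {X : Type*} (S : Sys X)

/-- the edge `(τ, x, y)` is bad -/
def Bad (g : X → L) (τ : Bool) (x y : X) : Prop :=
  S.E τ x y ∧ role (g x) = some (true, τ) ∧ role (g y) = some (false, τ)

/-- number of bad edges from `x` to `y` -/
noncomputable def b (g : X → L) (x y : X) : ℕ := ∑ τ : Bool, ind (S.Bad g τ x y)

/-- number of bad edges between `x` and `y` -/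
noncomputable def l (g : X → L) (x y : X) : ℕ := S.b g x y + S.b g y x

lemma l_comm (g : X → L) (x y : X) : S.l g x y = S.l g y x := by
  unfold l; rw [add_comm]

lemma b_eq_zero_or (g : X → L) (x y : X) : S.b g x y = 0 ∨
    (S.b g x y = 1 ∧ ∃ τ, S.Bad g τ x y) := by
  unfold b
  by_cases h : ∃ τ, S.Bad g τ x y
  · right
    refine ⟨?_, h⟩
    obtain ⟨τ, hτ⟩ := h
    rw [Finset.sum_eq_single τ]
    · exact ind_pos hτ
    · intro τ' _ hne
      apply ind_neg
      intro h'
      apply hne
      have := hτ.2.1.symm.trans h'.2.1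
      simpa using this.symm
    · intro h; exact absurd (Finset.mem_univ _) h
  · left
    push Not at h
    apply Finset.sum_eq_zero
    intro τ _
    exact ind_neg (h τ)

lemma b_pos (g : X → L) (x y : X) (h : S.b g x y ≠ 0) : ∃ τ, S.Bad g τ x y := by
  rcases S.b_eq_zero_or g x y with h' | h'
  · exact absurd h' h
  · exact h'.2

lemma b_le_one (g : X → L) (x y : X) : S.b g x y ≤ 1 := by
  rcases S.b_eq_zero_or g x y with h' | h' <;> omega

lemma b_self (g : X → L) (x : X) : S.b g x x = 0 := by
  by_contra h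
  obtain ⟨τ, h1, h2, h3⟩ := S.b_pos g x x h
  rw [h2] at h3
  simp at h3

lemma b_excl (g : X → L) (x y z : X) (h1 : S.b g x y ≠ 0) (h2 : S.b g z x ≠ 0) : False := by
  obtain ⟨τ, _, h3, _⟩ := S.b_pos g x y h1
  obtain ⟨τ', _, _, h4⟩ := S.b_pos g z x h2
  rw [h3] at h4
  simp at h4

lemma l_le_one (g : X → L) (x y : X) : S.l g x y ≤ 1 := by
  unfold l
  have h1 := S.b_le_one g x y
  have h2 := S.b_le_one g y x
  by_cases h3 : S.b g x y = 0
  · omega
  by_cases h4 : S.b g y x = 0
  · omega
  exact (S.b_excl g x y y h3 h4).elim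

lemma l_unique (g : X → L) (x y z : X) (h1 : S.l g x y ≠ 0) (h2 : S.l g x z ≠ 0) : y = z := by
  unfold l at h1 h2
  have h1' : S.b g x y ≠ 0 ∨ S.b g y x ≠ 0 := by omega
  have h2' : S.b g x z ≠ 0 ∨ S.b g z x ≠ 0 := by omega
  rcases h1' with h1' | h1' <;> rcases h2' with h2' | h2'
  · obtain ⟨τ, e1, r1, s1⟩ := S.b_pos g x y h1'
    obtain ⟨τ', e2, r2, s2⟩ := S.b_pos g x z h2'
    have : τ = τ' := by
      have := r1.symm.trans r2
      simpa using this
    subst this
    exact S.func e1 e2
  · exact (S.b_excl g x y z h1' h2').elim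
  · exact (S.b_excl g x z y h2' h1').elim
  · obtain ⟨τ, e1, r1, s1⟩ := S.b_pos g y x h1'
    obtain ⟨τ', e2, r2, s2⟩ := S.b_pos g z x h2'
    have : τ = τ' := by
      have := s1.symm.trans s2
      simpa using this
    subst this
    exact S.inj e1 e2

/-- number of bad edges inside `V` -/
noncomputable def bad (g : X → L) (V : Finset X) : ℕ := ∑ x ∈ V, ∑ y ∈ V, S.b g x y

variable [DecidableEq X]

lemma bad_insert (g : X → L) (V : Finset X) (v : X) (hv : v ∉ V) :
    S.bad g (insert v V) = S.bad g V + ∑ u ∈ V, S.l g v u := by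
  unfold bad l
  rw [Finset.sum_insert hv, Finset.sum_insert hv, S.b_self]
  have : ∑ x ∈ V, ∑ y ∈ insert v V, S.b g x y = ∑ x ∈ V, (S.b g x v + ∑ y ∈ V, S.b g x y) := by
    apply Finset.sum_congr rfl
    intro x _
    rw [Finset.sum_insert hv]
  rw [this, Finset.sum_add_distrib, Finset.sum_add_distrib]
  ring

omit [DecidableEq X] in
lemma bad_empty (g : X → L) : S.bad g ∅ = 0 := by simp [bad]

/-- the pointwise identity -/
lemma pointwise (y : ℝ) (g : X → L) (V : Finset X) (v : X) (hv : v ∉ V) :
    y ^ S.bad g (insert v V) =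
      y ^ S.bad g V - (1 - y) * ∑ u ∈ V, (S.l g v u : ℝ) * y ^ S.bad g (V.erase u) := by
  by_cases h : ∃ u ∈ V, S.l g v u ≠ 0
  · obtain ⟨u, hu, hl⟩ := h
    have h1 : S.l g v u = 1 := by
      have := S.l_le_one g v u
      omega
    have hz : ∀ w, w ≠ u → S.l g v w = 0 := by
      intro w hw
      by_contra hne
      exact hw (S.l_unique g v w u hne hl)
    have h2 : ∑ w ∈ V, S.l g v w = 1 := by
      rw [Finset.sum_eq_single u (fun w _ hw => hz w hw) (fun h => absurd hu h), h1]
    have h3 : ∑ w ∈ V, (S.l g v w : ℝ) * y ^ S.bad g (V.erase w) = y ^ S.bad g (V.erase u) := by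
      rw [Finset.sum_eq_single u (fun w _ hw => by rw [hz w hw]; simp) (fun h => absurd hu h), h1]
      simp
    have h4 : S.bad g V = S.bad g (V.erase u) := by
      conv_lhs => rw [← Finset.insert_erase hu]
      rw [S.bad_insert g _ _ (Finset.notMem_erase _ _)]
      simp only [Nat.add_eq_left]
      apply Finset.sum_eq_zero
      intro w hw
      by_contra hne
      have : v = w := S.l_unique g u v w (by rw [S.l_comm]; exact hl) hne
      subst this
      exact hv (Finset.mem_of_mem_erase hw)
    rw [S.bad_insert g V v hv, h2, h3, ← h4, pow_succ]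
    ring
  · push Not at h
    have h2 : ∑ w ∈ V, S.l g v w = 0 := Finset.sum_eq_zero h
    have h3 : ∑ w ∈ V, (S.l g v w : ℝ) * y ^ S.bad g (V.erase w) = 0 := by
      apply Finset.sum_eq_zero
      intro w hw
      rw [h w hw]; simp
    rw [S.bad_insert g V v hv, h2, h3]
    simp

lemma bad_update (g : X → L) (V : Finset X) (u : X) (hu : u ∉ V) (a : L) :
    S.bad (Function.update g u a) V = S.bad g V := by
  unfold bad b
  apply Finset.sum_congr rfl
  intro x hx
  apply Finset.sum_congr rfl
  intro y hy
  apply Finset.sum_congr rfl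
  intro τ _
  apply ind_congr
  unfold Bad
  have hxu : x ≠ u := fun h => hu (h ▸ hx)
  have hyu : y ≠ u := fun h => hu (h ▸ hy)
  rw [Function.update_of_ne hxu, Function.update_of_ne hyu]

variable [Fintype X]

lemma indep (F : (X → L) → ℝ) (u : X) (hF : ∀ g a, F (Function.update g u a) = F g)
    (φ : L → ℝ) : 32 * ∑ g, φ (g u) * F g = (∑ a, φ a) * ∑ g, F g := by
  have h1 : ∑ p : (X → L) × L, φ p.2 * F p.1 = (∑ a, φ a) * ∑ g, F g := by
    rw [Fintype.sum_prod_type, Finset.sum_mul_sum, Finset.sum_comm]
  have h2 : ∑ p : (X → L) × L, φ (p.1 u) * F p.1 = 32 * ∑ g, φ (g u) * F g := by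
    rw [Fintype.sum_prod_type]
    simp only [Finset.sum_const, Finset.card_univ, card_L, nsmul_eq_mul]
    rw [Finset.mul_sum]
    norm_num
  rw [← h1, ← h2]
  symm
  let e : (X → L) × L → (X → L) × L := fun p => (Function.update p.1 u p.2, p.1 u)
  have he : Function.Involutive e := by
    intro p
    simp only [e]
    ext1
    · simp
    · simp
  apply Fintype.sum_bijective e he.bijective
  intro p
  simp only [e]
  rw [Function.update_self, hF]

lemma indep2 (F : (X → L) → ℝ) (u v : X) (huv : u ≠ v)
    (hFu : ∀ g a, F (Function.update g u a) = F g)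
    (hFv : ∀ g a, F (Function.update g v a) = F g)
    (φ ψ : L → ℝ) : 1024 * ∑ g, φ (g u) * (ψ (g v) * F g) =
      (∑ a, φ a) * ((∑ a, ψ a) * ∑ g, F g) := by
  have h1 := indep (fun g => ψ (g v) * F g) u (by
    intro g a
    show ψ (Function.update g u a v) * F (Function.update g u a) = ψ (g v) * F g
    rw [hFu, Function.update_of_ne huv.symm]) φ
  have h2 := indep F v hFv ψ
  rw [← h2]
  have : (1024:ℝ) = 32 * 32 := by norm_num
  rw [this, mul_assoc, h1]
  ring

/-- the number of edges between `v` and `u` -/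
noncomputable def adj (v u : X) : ℕ := ∑ τ : Bool, (ind (S.E τ v u) + ind (S.E τ u v))

lemma sum_ind_role (b τ : Bool) : ∑ a : L, (ind (role a = some (b, τ)) : ℝ) =
    if b then 2 else 4 := by
  have : ∑ a : L, (ind (role a = some (b, τ)) : ℝ) =
      ((univ.filter (fun l : L => role l = some (b, τ))).card : ℝ) := by
    rw [Finset.card_filter]
    push_cast
    apply Finset.sum_congr rfl
    intro a _
    by_cases h : role a = some (b, τ)
    · rw [ind_pos h, if_pos h]; simp
    · rw [ind_neg h, if_neg h]; simp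
  rw [this]
  cases b
  · rw [card_role_false]; simp
  · rw [card_role_true]; simp

/-- expectation of one indicator -/
lemma exp_bad (F : (X → L) → ℝ) (u v : X) (huv : u ≠ v)
    (hFu : ∀ g a, F (Function.update g u a) = F g)
    (hFv : ∀ g a, F (Function.update g v a) = F g) (τ : Bool) :
    ∑ g, (ind (S.Bad g τ u v) : ℝ) * F g = (ind (S.E τ u v) : ℝ) * ((1/128) * ∑ g, F g) := by
  have h1 := indep2 F u v huv hFu hFv (fun a => (ind (role a = some (true, τ)) : ℝ))
    (fun a => (ind (role a = some (false, τ)) : ℝ))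
  rw [sum_ind_role, sum_ind_role] at h1
  simp only [if_true, Bool.false_eq_true, if_false] at h1
  have h2 : ∑ g, (ind (S.Bad g τ u v) : ℝ) * F g =
      (ind (S.E τ u v) : ℝ) * ∑ g, (ind (role (g u) = some (true, τ)) : ℝ) *
        ((ind (role (g v) = some (false, τ)) : ℝ) * F g) := by
    rw [Finset.mul_sum]
    apply Finset.sum_congr rfl
    intro g _
    unfold Bad
    rw [ind_and, ind_and]
    push_cast
    ring
  rw [h2]
  have h3 : ∑ g, (ind (role (g u) = some (true, τ)) : ℝ) *
        ((ind (role (g v) = some (false, τ)) : ℝ) * F g) = (1/128) * ∑ g, F g := by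
    linarith
  rw [h3]

/-- the expectation of `y ^ bad` -/
noncomputable def Pr (y : ℝ) (V : Finset X) : ℝ :=
  (∑ g : X → L, y ^ S.bad g V) / (32 ^ Fintype.card X : ℝ)

lemma card_fun : (Fintype.card (X → L) : ℝ) = 32 ^ Fintype.card X := by
  rw [Fintype.card_fun, card_L]
  push_cast
  rfl

lemma sum_step (y : ℝ) (V : Finset X) (v : X) (hv : v ∉ V) :
    ∑ g : X → L, y ^ S.bad g (insert v V) = ∑ g : X → L, y ^ S.bad g V -
      (1 - y) / 128 * ∑ u ∈ V, (S.adj v u : ℝ) * ∑ g : X → L, y ^ S.bad g (V.erase u) := by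
  have h1 : ∑ g : X → L, y ^ S.bad g (insert v V) =
      ∑ g : X → L, y ^ S.bad g V - (1 - y) *
        ∑ u ∈ V, ∑ g : X → L, (S.l g v u : ℝ) * y ^ S.bad g (V.erase u) := by
    rw [Finset.sum_comm, Finset.mul_sum, ← Finset.sum_sub_distrib]
    apply Finset.sum_congr rfl
    intro g _
    exact S.pointwise y g V v hv
  rw [h1]
  have h2 : ∑ u ∈ V, ∑ g : X → L, (S.l g v u : ℝ) * y ^ S.bad g (V.erase u) =
      1 / 128 * ∑ u ∈ V, (S.adj v u : ℝ) * ∑ g : X → L, y ^ S.bad g (V.erase u) := by
    rw [Finset.mul_sum]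
    apply Finset.sum_congr rfl
    intro u hu
    have hvu : v ≠ u := fun h => hv (h ▸ hu)
    have hFu : ∀ (g : X → L) a, y ^ S.bad (Function.update g u a) (V.erase u) =
        y ^ S.bad g (V.erase u) := by
      intro g a
      rw [S.bad_update g _ _ (Finset.notMem_erase _ _)]
    have hFv : ∀ (g : X → L) a, y ^ S.bad (Function.update g v a) (V.erase u) =
        y ^ S.bad g (V.erase u) := by
      intro g a
      rw [S.bad_update g _ _ (fun h => hv (Finset.mem_of_mem_erase h))]
    have e1 : ∀ g : X → L, (S.l g v u : ℝ) * y ^ S.bad g (V.erase u) =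
        ∑ τ : Bool, ((ind (S.Bad g τ v u) : ℝ) * y ^ S.bad g (V.erase u) +
          (ind (S.Bad g τ u v) : ℝ) * y ^ S.bad g (V.erase u)) := by
      intro g
      unfold l b
      push_cast
      rw [Finset.sum_add_distrib, add_mul, Finset.sum_mul, Finset.sum_mul]
    simp_rw [e1]
    rw [Finset.sum_comm]
    simp_rw [Finset.sum_add_distrib]
    have e2 := fun τ => S.exp_bad (fun g => y ^ S.bad g (V.erase u)) v u hvu hFv hFu τ
    have e3 := fun τ => S.exp_bad (fun g => y ^ S.bad g (V.erase u)) u v hvu.symm hFu hFv τ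
    simp_rw [e2, e3]
    unfold adj
    push_cast
    rw [Finset.sum_add_distrib, ← Finset.sum_mul, ← Finset.sum_mul]
    ring
  rw [h2]
  ring

omit [DecidableEq X] in
lemma adj_sum (v : X) : ∑ u, S.adj v u ≤ 4 := by
  unfold adj
  rw [Finset.sum_comm]
  have h : ∀ τ : Bool, ∑ u, (ind (S.E τ v u) + ind (S.E τ u v)) ≤ 2 := by
    intro τ
    rw [Finset.sum_add_distrib]
    have h1 : ∑ u, ind (S.E τ v u) ≤ 1 := by
      by_cases h : ∃ u, S.E τ v u
      · obtain ⟨u, hu⟩ := h
        rw [Finset.sum_eq_single u]
        · exact ind_le_one _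
        · intro w _ hw
          apply ind_neg
          intro h'
          exact hw (S.func h' hu)
        · intro h; exact absurd (Finset.mem_univ _) h
      · push Not at h
        rw [Finset.sum_eq_zero]
        · omega
        · intro w _
          exact ind_neg (h w)
    have h2 : ∑ u, ind (S.E τ u v) ≤ 1 := by
      by_cases h : ∃ u, S.E τ u v
      · obtain ⟨u, hu⟩ := h
        rw [Finset.sum_eq_single u]
        · exact ind_le_one _
        · intro w _ hw
          apply ind_neg
          intro h'
          exact hw (S.inj h' hu)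
        · intro h; exact absurd (Finset.mem_univ _) h
      · push Not at h
        rw [Finset.sum_eq_zero]
        · omega
        · intro w _
          exact ind_neg (h w)
    omega
  calc ∑ τ : Bool, ∑ u, (ind (S.E τ v u) + ind (S.E τ u v)) ≤ ∑ τ : Bool, 2 :=
        Finset.sum_le_sum (fun τ _ => h τ)
    _ = 4 := by simp

/-- the recursion system of `S` -/
noncomputable def recSys (y : ℝ) : RecSys ((1 - y) / 128) X where
  adj := S.adj
  P := S.Pr y
  empty := by
    unfold Pr
    simp only [S.bad_empty, pow_zero, Finset.sum_const, Finset.card_univ, nsmul_eq_mul, mul_one]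
    rw [card_fun, div_self]
    positivity
  deg := S.adj_sum
  step := by
    intro V v hv
    unfold Pr
    rw [S.sum_step y V v hv, sub_div]
    congr 1
    rw [mul_div_assoc, Finset.sum_div]
    congr 1
    apply Finset.sum_congr rfl
    intro u _
    rw [mul_div_assoc]

end Sys

end Pool.Agent.H341.GR
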