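import Pool.Agent.H341.GR.Grp

/-!
Lower bound for the length of an element in terms of bad edges.
-/

namespace Pool.Agent.H341.GR

open Finset

/-- products of `r` letters -/
def Len (n r : ℕ) (g : G) : Prop :=
  ∃ l : List G, l.length = r ∧ (∀ x ∈ l, x ∈ S n ∨ x⁻¹ ∈ S n) ∧ l.prod = g

/-- the invariant of a product of `r` letters -/
def Inv (n r : ℕ) (g : G) : Prop :=
  ∃ (c : ℤ →₀ ℕ) (v : ℤ →₀ W) (a b : ℤ),
    g.f = Phi n v ∧ c.degree = r ∧ (a ≤ 0 ∧ 0 ≤ b ∧ a ≤ g.k ∧ g.k ≤ b) ∧
    (∀ i, c i = 0 → v i = 0) ∧ (∀ i, c i = 1 → InU (v i)) ∧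
    (∀ i, c i ≠ 0 ↔ (a ≤ i ∧ i < b)) ∧
    (∀ i, c i % 2 = 1 ↔ ((0 ≤ i ∧ i < g.k) ∨ (g.k ≤ i ∧ i < 0)))

lemma Inv_one (n : ℕ) : Inv n 0 1 := by
  refine ⟨0, 0, 0, 0, ?_, ?_, ?_, ?_, ?_, ?_, ?_⟩
  · rw [map_zero]; rfl
  · simp
  · rw [one_k]; omega
  · intro i _; rfl
  · intro i h; simp at h
  · intro i; simp
  · intro i; rw [one_k]; simp

lemma Inv_step (n r : ℕ) (g g' : G) (w : W) (e : ℤ) (hg : Inv n r g) (hw : InU w)
    (hf : g'.f = g.f + sh e (m n w))
    (he : (e = g.k ∧ g'.k = g.k + 1) ∨ (e = g.k - 1 ∧ g'.k = g.k - 1)) : Inv n (r + 1) g' := by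
  obtain ⟨c, v, a, b, h1, h2, h3, h4, h5, h6, h7⟩ := hg
  have hself : (c + Finsupp.single e 1 : ℤ →₀ ℕ) e = c e + 1 := by simp
  have hne : ∀ i, i ≠ e → (c + Finsupp.single e 1 : ℤ →₀ ℕ) i = c i := by
    intro i hi
    rw [Finsupp.add_apply, Finsupp.single_apply, if_neg (fun h => hi h.symm), add_zero]
  have vself : (v + Finsupp.single e w : ℤ →₀ W) e = v e + w := by simp
  have vne : ∀ i, i ≠ e → (v + Finsupp.single e w : ℤ →₀ W) i = v i := by
    intro i hi
    rw [Finsupp.add_apply, Finsupp.single_apply, if_neg (fun h => hi h.symm), add_zero]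
  refine ⟨c + Finsupp.single e 1, v + Finsupp.single e w, min a e, max b (e + 1),
    ?_, ?_, ?_, ?_, ?_, ?_, ?_⟩
  · rw [map_add, Phi_single, ← h1, hf]
  · rw [map_add, h2]; simp
  · omega
  · intro i hi
    by_cases h : i = e
    · subst h; rw [hself] at hi; omega
    · rw [hne i h] at hi; rw [vne i h]; exact h4 i hi
  · intro i hi
    by_cases h : i = e
    · subst h
      rw [hself] at hi
      rw [vself, h4 i (by omega), zero_add]
      exact hw
    · rw [hne i h] at hi; rw [vne i h]; exact h5 i hi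
  · intro i
    by_cases h : i = e
    · subst h; rw [hself]
      constructor
      · intro _; omega
      · intro _; omega
    · rw [hne i h, h6 i]
      omega
  · intro i
    have := h7 i
    by_cases h : i = e
    · subst h; rw [hself]
      omega
    · rw [hne i h]
      omega

lemma Inv_of_Len (n r : ℕ) (g : G) (h : Len n r g) : Inv n r g := by
  obtain ⟨l, hl, hS, hp⟩ := h
  induction l using List.reverseRecOn generalizing r g with
  | nil =>
    simp at hl hp
    subst hl; subst hp
    exact Inv_one n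
  | append_singleton l x ih =>
    have h1 := ih l.length l.prod rfl (fun y hy => hS y (by simp [hy])) rfl
    rw [List.prod_append, List.prod_singleton] at hp
    rw [List.length_append, List.length_singleton] at hl
    subst hl; subst hp
    rcases hS x (by simp) with hx | hx
    · rw [mem_S] at hx
      obtain ⟨w, hw, rfl⟩ := hx
      exact Inv_step n _ _ _ w _ h1 hw (by rw [mul_s]) (Or.inl ⟨rfl, rfl⟩)
    · rw [mem_S] at hx
      obtain ⟨w, hw, hx⟩ := hx
      have : x = (s n w)⁻¹ := by rw [hx, inv_inv]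
      subst this
      exact Inv_step n _ _ _ w _ h1 hw (by rw [mul_s_inv]) (Or.inr ⟨rfl, by rw [mul_s_inv]⟩)

lemma Sys.sum_l_le_one {X : Type*} [Fintype X] (T : Sys X) (g : X → L) (x : X) :
    ∑ y, T.l g x y ≤ 1 := by
  by_cases h : ∃ y, T.l g x y ≠ 0
  · obtain ⟨y, hy⟩ := h
    rw [Finset.sum_eq_single y]
    · exact T.l_le_one g x y
    · intro z _ hz
      by_contra hne
      exact hz (T.l_unique g x z y hne hy)
    · intro h; exact absurd (Finset.mem_univ _) h
  · push Not at h
    rw [Finset.sum_eq_zero (fun y _ => h y)]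
    omega

lemma Sys.bad_le {X : Type*} [Fintype X] (T : Sys X) (g : X → L) (N : X → ℕ)
    (h : ∀ x y τ, T.Bad g τ x y → 1 ≤ N x + N y) : T.bad g univ ≤ ∑ x, N x := by
  have h1 : T.bad g univ ≤ ∑ x, ∑ y, (T.b g x y * N x + T.b g x y * N y) := by
    unfold Sys.bad
    apply Finset.sum_le_sum
    intro x _
    apply Finset.sum_le_sum
    intro y _
    by_cases hb : T.b g x y = 0
    · rw [hb]; omega
    · obtain ⟨τ, hτ⟩ := T.b_pos g x y hb
      have := h x y τ hτ
      rw [← mul_add]
      exact Nat.le_mul_of_pos_right _ (by omega)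
  have h2 : ∑ x, ∑ y, (T.b g x y * N x + T.b g x y * N y) = ∑ x, N x * ∑ y, T.l g x y := by
    simp_rw [Finset.sum_add_distrib]
    rw [Finset.sum_comm (f := fun x y => T.b g x y * N y), ← Finset.sum_add_distrib]
    apply Finset.sum_congr rfl
    intro x _
    rw [Finset.mul_sum, ← Finset.sum_add_distrib]
    apply Finset.sum_congr rfl
    intro y _
    unfold Sys.l
    ring
  rw [h2] at h1
  refine h1.trans ?_
  apply Finset.sum_le_sum
  intro x _
  calc N x * ∑ y, T.l g x y ≤ N x * 1 := Nat.mul_le_mul_left _ (T.sum_l_le_one g x)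
    _ = N x := by ring

lemma zmod_two_ne (x : ZMod 2) (h : x = 1) : x ≠ 0 := by subst h; decide

lemma Inv_bound (n r : ℕ) (hn : 1 ≤ n) (g : G) (h : Inv n r g) (k : ℕ) (hk : g.k = k) :
    ∃ x y : ℕ, (∀ i : ℤ, g.f i ≠ 0 → -(x : ℤ) - n ≤ i ∧ i < k + y) ∧
      2 * x + 2 * y + k + 2 * (base n k).bad (fun j : Fin k => g.f ((j : ℕ) : ℤ)) univ ≤ r := by
  obtain ⟨c, v, a, b, h1, h2, ⟨ha0, hb0, hak, hkb⟩, h4, h5, h6, h7⟩ := h
  rw [hk] at hak hkb
  refine ⟨(-a).toNat, (b - k).toNat, ?_, ?_⟩
  · intro i hi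
    have hd : ∀ τ : Bool, (dd n τ : ℤ) ≤ n ∧ (0:ℤ) ≤ dd n τ := by
      intro τ
      cases τ <;> simp [dd]
      exact_mod_cast hn
    have : (a ≤ i ∧ i < b) ∨ ∃ τ, (a ≤ i + dd n τ ∧ i + dd n τ < b) := by
      by_contra hcon
      push Not at hcon
      apply hi
      rw [h1, Phi_apply]
      have e1 : v i = 0 := by
        apply h4
        by_contra hne
        have := (h6 i).mp hne
        have := hcon.1 this.1
        omega
      have e2 : ∀ τ, v (i + dd n τ) = 0 := by
        intro τ
        apply h4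
        by_contra hne
        have := (h6 _).mp hne
        have := hcon.2 τ this.1
        omega
      rw [e1]
      simp_rw [e2]
      ext1
      · rfl
      · funext τ; simp
    rcases this with h | ⟨τ, h⟩
    · omega
    · have := hd τ
      omega
  · set T : Finset ℤ := univ.image (fun j : Fin k => ((j : ℕ) : ℤ)) with hT
    have hTmem : ∀ i : ℤ, i ∈ T ↔ (0 ≤ i ∧ i < k) := by
      intro i
      rw [hT, Finset.mem_image]
      constructor
      · rintro ⟨j, _, rfl⟩
        have := j.isLt
        omega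
      · intro h
        exact ⟨⟨i.toNat, by omega⟩, Finset.mem_univ _, by simp; omega⟩
    have hsub : T ⊆ Finset.Ico a b := by
      intro i hi
      rw [hTmem] at hi
      rw [Finset.mem_Ico]
      omega
    have hdeg : c.degree = ∑ i ∈ Finset.Ico a b, c i := by
      rw [Finsupp.degree_apply]
      apply Finset.sum_subset
      · intro i hi
        rw [Finsupp.mem_support_iff, h6] at hi
        rw [Finset.mem_Ico]
        exact hi
      · intro i _ hi
        rwa [Finsupp.notMem_support_iff] at hi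
    have hinj : Function.Injective (fun j : Fin k => ((j : ℕ) : ℤ)) := by
      intro j j' hj
      ext
      simpa using hj
    have hcardT : T.card = k := by
      rw [hT, Finset.card_image_of_injective _ hinj]; simp
    have h8 : ∑ i ∈ Finset.Ico a b \ T, c i + ∑ i ∈ T, c i = r := by
      rw [Finset.sum_sdiff hsub, ← hdeg, h2]
    have h9 : 2 * (-a).toNat + 2 * (b - k).toNat ≤ ∑ i ∈ Finset.Ico a b \ T, c i := by
      have e1 : (Finset.Ico a b \ T).card = (-a).toNat + (b - k).toNat := by
        rw [Finset.card_sdiff_of_subset hsub, hcardT, Int.card_Ico]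
        omega
      calc 2 * (-a).toNat + 2 * (b - k).toNat = ∑ i ∈ Finset.Ico a b \ T, 2 := by
            rw [Finset.sum_const, e1, smul_eq_mul]; ring
        _ ≤ _ := by
            apply Finset.sum_le_sum
            intro i hi
            rw [Finset.mem_sdiff, Finset.mem_Ico, hTmem] at hi
            have e2 := h6 i
            have e3 := h7 i
            rw [hk] at e3
            omega
    have h10 : k + 2 * (base n k).bad (fun j : Fin k => g.f ((j : ℕ) : ℤ)) univ ≤
        ∑ i ∈ T, c i := by
      rw [hT, Finset.sum_image (fun x _ y _ h => hinj h)]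
      have h11 := (base n k).bad_le (fun j : Fin k => g.f ((j : ℕ) : ℤ))
        (fun j : Fin k => ind (¬ InU (v ((j : ℕ) : ℤ)))) (by
          rintro x y τ ⟨hE, hr1, hr2⟩
          by_contra hcon
          have c1 : InU (v ((x : ℕ) : ℤ)) := by
            by_contra hc; rw [ind_pos hc] at hcon; omega
          have c2 : InU (v ((y : ℕ) : ℤ)) := by
            by_contra hc; rw [ind_pos hc] at hcon; omega
          beta_reduce at hr1 hr2
          rw [role_true, h1, Phi_apply] at hr1
          rw [role_false, h1, Phi_apply] at hr2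
          have hxy : ((y : ℕ) : ℤ) = ((x : ℕ) : ℤ) + dd n τ := by
            have : (y : ℕ) = x + dd n τ := hE
            omega
          have d1 := (c1 τ).1 hr1.1
          have d2 := (c2 τ).2 hr2
          have d3 : (v ((x : ℕ) : ℤ)).2.1 τ + (v (((x : ℕ) : ℤ) + dd n τ)).2.2 τ = 1 := hr1.2
          rw [← hxy, d1, d2] at d3
          exact absurd d3 (by decide))
      calc k + 2 * (base n k).bad (fun j : Fin k => g.f ((j : ℕ) : ℤ)) univ
          ≤ k + 2 * ∑ j : Fin k, ind (¬ InU (v ((j : ℕ) : ℤ))) := by omega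
        _ = ∑ j : Fin k, (1 + 2 * ind (¬ InU (v ((j : ℕ) : ℤ)))) := by
            rw [Finset.sum_add_distrib, Finset.mul_sum]; simp
        _ ≤ _ := by
            apply Finset.sum_le_sum
            intro j _
            have hj := j.isLt
            have e3 := h7 ((j : ℕ) : ℤ)
            rw [hk] at e3
            have e4 := h5 ((j : ℕ) : ℤ)
            by_cases hc : InU (v ((j : ℕ) : ℤ))
            · rw [ind_neg (by simpa using hc)]; omega
            · rw [ind_pos hc]
              have : c ((j : ℕ) : ℤ) ≠ 1 := fun h => hc (e4 h)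
              omega
    omega

end Pool.Agent.H341.GR
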